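import Mathlib

set_option autoImplicit false

namespace Pool.Agent.Lib.MP_3498ef_gt

/-- The Euclidean plane. -/
abbrev Plane := EuclideanSpace ℝ (Fin 2)

/-- A Hilbert plane: a nonempty, bounded, open, strictly convex region of the Euclidean plane
(strict convexity: the open segment between two distinct points of the closure lies in the
interior, so the boundary contains no line segment). -/
structure IsHilbertPlane (Ω : Set Plane) : Prop where
  nonempty : Ω.Nonempty
  isOpen : IsOpen Ω
  isBounded : Bornology.IsBounded Ω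
  convex : Convex ℝ Ω
  strictConvex : StrictConvex ℝ (closure Ω)

/-- The Hilbert distance of `X` and `Y`: if the line `XY` meets the boundary of `Ω` in `I`, `J`,
ordered `I, X, Y, J`, it is `(1/2) log (|XJ| |YI| / (|XI| |YJ|))`; it is `0` if `X = Y`. -/
noncomputable def hilbertDist (Ω : Set Plane) (X Y : Plane) : ℝ :=
  sSup {r : ℝ | ∃ I J : Plane, I ∈ frontier Ω ∧ J ∈ frontier Ω ∧
    Sbtw ℝ I X Y ∧ Sbtw ℝ X Y J ∧
    r = 1 / 2 * Real.log ((dist X J * dist Y I) / (dist X I * dist Y J))}

/-- A geodesic line of `Ω`: the nonempty intersection of `Ω` with a straight line. -/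
def IsGeodesicLine (Ω L : Set Plane) : Prop :=
  ∃ l : AffineSubspace ℝ Plane, Module.finrank ℝ l.direction = 1 ∧
    L = (l : Set Plane) ∩ Ω ∧ L.Nonempty

/-- The Hilbert distance from a point to a set (a geodesic line): the infimum of the distances. -/
noncomputable def distTo (Ω : Set Plane) (X : Plane) (L : Set Plane) : ℝ :=
  sInf ((fun Y => hilbertDist Ω X Y) '' L)

/-- The conic with parameter `ϱ`, focus `F` and leading line `L`. -/
def conic (Ω : Set Plane) (ϱ : ℝ) (F : Plane) (L : Set Plane) : Set Plane :=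
  {X ∈ Ω | ϱ * distTo Ω X L = distTo Ω F L * hilbertDist Ω F X}

/-- `C` is a parabolic conic of `Ω`: the conic of some geodesic line `L` and focus `F ∉ L`,
with positive parameter `ϱ = d(F, L)`. -/
def IsParabolicConic (Ω C : Set Plane) : Prop :=
  ∃ (L : Set Plane) (F : Plane) (ϱ : ℝ), IsGeodesicLine Ω L ∧ F ∈ Ω ∧ F ∉ L ∧
    0 < ϱ ∧ ϱ = distTo Ω F L ∧ C = conic Ω ϱ F L

/-- `S` is a quadric of `Ω`: the intersection of `Ω` with the zero set of a polynomial of
degree 2 in the affine coordinates. -/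
def IsQuadric (Ω S : Set Plane) : Prop :=
  ∃ a b c d e f : ℝ, (a ≠ 0 ∨ b ≠ 0 ∨ c ≠ 0) ∧
    S = {X ∈ Ω | a * X 0 ^ 2 + b * (X 0 * X 1) + c * X 1 ^ 2 + d * X 0 + e * X 1 + f = 0}

/-- `E` is an ellipse: an affine image of the unit circle. -/
def IsEllipse (E : Set Plane) : Prop :=
  ∃ T : Plane ≃ᵃ[ℝ] Plane, E = T '' Metric.sphere 0 1

/-- `Ω` is a model of the hyperbolic plane: the interior of an ellipse, i.e. an affine image of
the open unit disc. -/
def IsHyperbolicModel (Ω : Set Plane) : Prop :=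
  ∃ T : Plane ≃ᵃ[ℝ] Plane, Ω = T '' Metric.ball 0 1

end Pool.Agent.Lib.MP_3498ef_gt
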