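import Pool.Agent.Lib.MP_3498ef_gt.Defs

set_option autoImplicit false

open Set

namespace Pool.Agent.Lib.MP_3498ef_gt

/-- continuous affine real functions, in a hands-on form -/
structure IsAff (φ : Plane → ℝ) : Prop where
  cont : Continuous φ
  aff : ∀ (x y : Plane) (t : ℝ), φ (AffineMap.lineMap x y t) = (1 - t) * φ x + t * φ y

/-- `b` lies on the segment from `a` to the boundary point `J`, at parameter `s`. -/
def Ray (Ω : Set Plane) (a b J : Plane) (s : ℝ) : Prop :=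
  J ∈ frontier Ω ∧ 0 < s ∧ s < 1 ∧ AffineMap.lineMap a J s = b

/-- the exponential of (twice) the Funk distance -/
noncomputable def E (Ω : Set Plane) (a b : Plane) : ℝ :=
  sSup {r : ℝ | ∃ (J : Plane) (s : ℝ), J ∈ frontier Ω ∧ 0 ≤ s ∧ s < 1 ∧
    AffineMap.lineMap a J s = b ∧ r = 1 / (1 - s)}

variable {Ω : Set Plane}

theorem lineMap_eq (a b : Plane) (s : ℝ) : AffineMap.lineMap a b s = a + s • (b - a) := by
  simp [AffineMap.lineMap_apply, add_comm]

theorem lineMap_mem_interior (hc : Convex ℝ Ω) {a J : Plane} (ha : a ∈ interior Ω)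
    (hJ : J ∈ closure Ω) {s : ℝ} (h0 : 0 ≤ s) (h1 : s < 1) :
    AffineMap.lineMap a J s ∈ interior Ω := by
  rcases eq_or_lt_of_le h0 with h | h
  · rw [← h]; simpa using ha
  · apply hc.openSegment_interior_closure_subset_interior ha hJ
    refine ⟨1 - s, s, by linarith, h, by ring, ?_⟩
    rw [lineMap_eq]
    module

theorem ray_unique (ho : IsOpen Ω) (hc : Convex ℝ Ω) {a J J' : Plane} (ha : a ∈ Ω)
    (hJ : J ∈ frontier Ω) (hJ' : J' ∈ frontier Ω) {s s' : ℝ} (hs : 0 < s) (hs' : 0 < s')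
    (h : AffineMap.lineMap a J s = (AffineMap.lineMap a J' s' : Plane)) : s = s' ∧ J = J' := by
  have key : ∀ {J J' : Plane} {s s' : ℝ}, J ∈ frontier Ω → J' ∈ frontier Ω → 0 < s → 0 < s' →
      (AffineMap.lineMap a J s : Plane) = AffineMap.lineMap a J' s' → ¬ s < s' := by
    intro J J' s s' hJ hJ' hs hs' h hlt
    have h1 : J' = AffineMap.lineMap a J (s / s') := by
      rw [lineMap_eq, lineMap_eq] at h
      have h2 : s • (J - a) = s' • (J' - a) := by simpa using h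
      rw [lineMap_eq, div_eq_inv_mul, mul_smul, h2, smul_smul, inv_mul_cancel₀ hs'.ne', one_smul]
      abel
    have h2 : J' ∈ interior Ω := by
      rw [h1]
      apply lineMap_mem_interior hc (by rwa [ho.interior_eq]) hJ.1 (by positivity)
      rw [div_lt_one hs']; exact hlt
    exact hJ'.2 h2
  have h1 := key hJ hJ' hs hs' h
  have h2 := key hJ' hJ hs' hs h.symm
  have h3 : s = s' := le_antisymm (not_lt.mp h2) (not_lt.mp h1)
  refine ⟨h3, ?_⟩
  subst h3
  rw [lineMap_eq, lineMap_eq] at h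
  have h2 : s • (J - a) = s • (J' - a) := by simpa using h
  have h4 := smul_right_injective Plane hs.ne' h2
  simpa using h4

theorem exists_ray (ho : IsOpen Ω) (hc : Convex ℝ Ω) (hb : Bornology.IsBounded Ω)
    {a b : Plane} (ha : a ∈ Ω) (hbΩ : b ∈ Ω) (hab : a ≠ b) : ∃ J s, Ray Ω a b J s := by
  -- the set of parameters staying in the closure
  let f : ℝ → Plane := fun t => AffineMap.lineMap a b t
  have hf : Continuous f := AffineMap.lineMap_continuous
  let S : Set ℝ := {t | 0 ≤ t ∧ f t ∈ closure Ω}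
  have hSc : IsClosed S := by
    apply IsClosed.inter isClosed_Ici
    exact isClosed_closure.preimage hf
  have hSne : (1 : ℝ) ∈ S := ⟨by norm_num, by simpa [f] using subset_closure hbΩ⟩
  have hba : 0 < ‖b - a‖ := norm_pos_iff.mpr (sub_ne_zero.mpr hab.symm)
  obtain ⟨C, hC⟩ := hb.closure.exists_norm_le
  have hSb : BddAbove S := by
    refine ⟨(C + ‖a‖) / ‖b - a‖, ?_⟩
    rintro t ⟨ht0, ht⟩
    have h1 := hC _ ht
    rw [le_div_iff₀ hba]
    have h2 : f t = a + t • (b - a) := lineMap_eq a b t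
    have h3 : t • (b - a) = f t - a := by rw [h2]; abel
    calc t * ‖b - a‖ = ‖t • (b - a)‖ := by rw [norm_smul, Real.norm_of_nonneg ht0]
      _ = ‖f t - a‖ := by rw [h3]
      _ ≤ ‖f t‖ + ‖a‖ := norm_sub_le _ _
      _ ≤ C + ‖a‖ := by linarith
  have hT := hSc.csSup_mem ⟨1, hSne⟩ hSb
  set T := sSup S with hTdef
  have hT1 : 1 ≤ T := le_csSup hSb hSne
  have hJcl : f T ∈ closure Ω := hT.2
  have hJnot : f T ∉ interior Ω := by
    rw [ho.interior_eq]
    intro hin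
    have : ∀ᶠ t in nhds T, f t ∈ Ω := hf.continuousAt.eventually (ho.mem_nhds hin)
    obtain ⟨ε, hε, hball⟩ := Metric.eventually_nhds_iff.mp this
    have h1 : f (T + ε / 2) ∈ Ω := by
      apply hball
      rw [Real.dist_eq]
      rw [show T + ε / 2 - T = ε / 2 by ring, abs_of_pos (by linarith)]
      linarith
    have h2 : T + ε / 2 ∈ S := ⟨by linarith, subset_closure h1⟩
    have := le_csSup hSb h2
    linarith
  have hT1' : 1 < T := by
    rcases eq_or_lt_of_le hT1 with h | h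
    · exfalso
      apply hJnot
      rw [ho.interior_eq, ← h]
      simpa [f] using hbΩ
    · exact h
  refine ⟨f T, 1 / T, ⟨hJcl, hJnot⟩, by positivity, ?_, ?_⟩
  · rw [div_lt_one (by linarith)]; exact hT1'
  · show AffineMap.lineMap a (AffineMap.lineMap a b T : Plane) (1 / T) = b
    rw [lineMap_eq, lineMap_eq]
    have hT0 : T ≠ 0 := by linarith
    have : a + T • (b - a) - a = T • (b - a) := by abel
    rw [this, smul_smul, one_div, inv_mul_cancel₀ hT0, one_smul]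
    abel

theorem E_eq (ho : IsOpen Ω) (hc : Convex ℝ Ω) {a b J : Plane} {s : ℝ} (ha : a ∈ Ω)
    (h : Ray Ω a b J s) : E Ω a b = 1 / (1 - s) := by
  have : {r : ℝ | ∃ (J : Plane) (s : ℝ), J ∈ frontier Ω ∧ 0 ≤ s ∧ s < 1 ∧
    AffineMap.lineMap a J s = b ∧ r = 1 / (1 - s)} = {1 / (1 - s)} := by
    ext r
    simp only [mem_ofPred_eq, mem_singleton_iff]
    constructor
    · rintro ⟨J', s', hJ', hs0, hs1, hb, rfl⟩
      have hs' : 0 < s' := by
        rcases eq_or_lt_of_le hs0 with h0 | h0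
        · exfalso
          rw [← h0] at hb
          simp only [AffineMap.lineMap_apply_zero] at hb
          obtain ⟨hJ, h1, h2, h3⟩ := h
          rw [← hb, lineMap_eq] at h3
          have h4 : s • (J - a) = 0 := by simpa using h3
          rcases smul_eq_zero.mp h4 with h5 | h5
          · exact h1.ne' h5
          · have : J = a := sub_eq_zero.mp h5
            rw [this] at hJ
            apply hJ.2
            rwa [ho.interior_eq]
        · exact h0
      have := ray_unique ho hc ha h.1 hJ' h.2.1 hs' (h.2.2.2.trans hb.symm)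
      rw [this.1]
    · rintro rfl
      exact ⟨J, s, h.1, h.2.1.le, h.2.2.1, h.2.2.2, rfl⟩
  rw [E, this, csSup_singleton]

theorem frontier_nonempty' (ho : IsOpen Ω) (hc : Convex ℝ Ω) (hb : Bornology.IsBounded Ω)
    {a : Plane} (ha : a ∈ Ω) : (frontier Ω).Nonempty := by
  obtain ⟨ε, hε, hball⟩ := Metric.isOpen_iff.mp ho a ha
  let v : Plane := EuclideanSpace.single 0 (ε / 2)
  have hv : ‖v‖ = ε / 2 := by
    simp [v, abs_of_pos hε]
  have h1 : a + v ∈ Ω := by
    apply hball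
    rw [Metric.mem_ball, dist_eq_norm]
    simp only [add_sub_cancel_left]
    rw [hv]; linarith
  have h2 : a ≠ a + v := by
    intro h
    have : v = 0 := by
      have := h.symm
      simpa using this
    rw [this] at hv
    simp at hv
    linarith
  obtain ⟨J, s, hJ⟩ := exists_ray ho hc hb ha h1 h2
  exact ⟨J, hJ.1⟩

theorem E_self (ho : IsOpen Ω) (hc : Convex ℝ Ω) (hb : Bornology.IsBounded Ω)
    {a : Plane} (ha : a ∈ Ω) : E Ω a a = 1 := by
  have : {r : ℝ | ∃ (J : Plane) (s : ℝ), J ∈ frontier Ω ∧ 0 ≤ s ∧ s < 1 ∧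
    AffineMap.lineMap a J s = a ∧ r = 1 / (1 - s)} = {1} := by
    ext r
    simp only [mem_ofPred_eq, mem_singleton_iff]
    constructor
    · rintro ⟨J', s', hJ', hs0, hs1, hb, rfl⟩
      rw [lineMap_eq] at hb
      have h4 : s' • (J' - a) = 0 := by simpa using hb
      rcases smul_eq_zero.mp h4 with h5 | h5
      · rw [h5]; norm_num
      · exfalso
        have : J' = a := sub_eq_zero.mp h5
        rw [this] at hJ'
        apply hJ'.2
        rwa [ho.interior_eq]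
    · rintro rfl
      obtain ⟨J, hJ⟩ := frontier_nonempty' ho hc hb ha
      exact ⟨J, 0, hJ, le_refl _, by norm_num, by simp, by norm_num⟩
  rw [E, this, csSup_singleton]

/-- `E > 1` for distinct points. -/
theorem one_lt_E (ho : IsOpen Ω) (hc : Convex ℝ Ω) (hb : Bornology.IsBounded Ω)
    {a b : Plane} (ha : a ∈ Ω) (hbΩ : b ∈ Ω) (hab : a ≠ b) : 1 < E Ω a b := by
  obtain ⟨J, s, h⟩ := exists_ray ho hc hb ha hbΩ hab
  rw [E_eq ho hc ha h, lt_div_iff₀ (by linarith [h.2.2.1])]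
  linarith [h.2.1]

theorem one_le_E (ho : IsOpen Ω) (hc : Convex ℝ Ω) (hb : Bornology.IsBounded Ω)
    {a b : Plane} (ha : a ∈ Ω) (hbΩ : b ∈ Ω) : 1 ≤ E Ω a b := by
  by_cases hab : a = b
  · rw [hab, E_self ho hc hb hbΩ]
  · exact (one_lt_E ho hc hb ha hbΩ hab).le

theorem aff_nonneg_closure {φ : Plane → ℝ} (hφ : IsAff φ) (h0 : ∀ z ∈ Ω, 0 ≤ φ z) :
    ∀ z ∈ closure Ω, 0 ≤ φ z := by
  intro z hz
  have : closure Ω ⊆ {z | 0 ≤ φ z} :=
    closure_minimal h0 (isClosed_le continuous_const hφ.cont)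
  exact this hz

theorem E_ge (ho : IsOpen Ω) (hc : Convex ℝ Ω) (hb : Bornology.IsBounded Ω)
    {φ : Plane → ℝ} (hφ : IsAff φ) (h0 : ∀ z ∈ Ω, 0 ≤ φ z)
    {a b : Plane} (ha : a ∈ Ω) (hbΩ : b ∈ Ω) : φ a ≤ E Ω a b * φ b := by
  by_cases hab : a = b
  · subst hab
    rw [E_self ho hc hb ha, one_mul]
  · obtain ⟨J, s, h⟩ := exists_ray ho hc hb ha hbΩ hab
    rw [E_eq ho hc ha h]
    obtain ⟨hJ, h1, h2, h3⟩ := h
    have h4 := hφ.aff a J s
    rw [h3] at h4
    have h5 := aff_nonneg_closure hφ h0 J hJ.1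
    have h6 : 0 < 1 - s := by linarith
    rw [div_mul_eq_mul_div, le_div_iff₀ h6, h4]
    nlinarith

theorem E_support (ho : IsOpen Ω) (hc : Convex ℝ Ω)
    {φ : Plane → ℝ} (hφ : IsAff φ) {a b J : Plane} {s : ℝ} (ha : a ∈ Ω)
    (h : Ray Ω a b J s) (hJ : φ J = 0) : φ a = E Ω a b * φ b := by
  rw [E_eq ho hc ha h]
  obtain ⟨_, h1, h2, h3⟩ := h
  have h4 := hφ.aff a J s
  rw [h3, hJ] at h4
  have h6 : 1 - s ≠ 0 := by linarith
  rw [h4]
  field_simp
  ring

/-- support functional at a frontier point -/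
theorem exists_support (ho : IsOpen Ω) (hc : Convex ℝ Ω) {J : Plane} (hJ : J ∈ frontier Ω) :
    ∃ φ : Plane → ℝ, IsAff φ ∧ (∀ z ∈ Ω, 0 < φ z) ∧ φ J = 0 := by
  have hJ' : J ∉ Ω := by
    have := hJ.2
    rwa [ho.interior_eq] at this
  obtain ⟨f, hf⟩ := geometric_hahn_banach_open_point hc ho hJ'
  refine ⟨fun z => f J - f z, ⟨by fun_prop, ?_⟩, ?_, by simp⟩
  · intro x y t
    rw [lineMap_eq]
    simp only [map_add, map_smul, map_sub, smul_eq_mul]
    ring
  · intro z hz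
    have := hf z hz
    simp only
    linarith

theorem support_unique (hs : StrictConvex ℝ (closure Ω)) (ho : IsOpen Ω) (hc : Convex ℝ Ω)
    {φ : Plane → ℝ} (hφ : IsAff φ) (hpos : ∀ z ∈ Ω, 0 < φ z) {J J' : Plane}
    (hJ : J ∈ closure Ω) (hJ' : J' ∈ closure Ω) (h : φ J = 0) (h' : φ J' = 0) : J = J' := by
  by_contra hne
  have h1 : AffineMap.lineMap J J' (1 / 2 : ℝ) ∈ interior (closure Ω) := by
    apply hs hJ hJ' hne (a := 1 / 2) (b := 1 / 2) (by norm_num) (by norm_num) (by norm_num)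
      |> fun h => ?_
    have h2 : (AffineMap.lineMap J J' (1 / 2 : ℝ) : Plane) = (1 / 2 : ℝ) • J + (1 / 2 : ℝ) • J' := by
      rw [lineMap_eq]; module
    rw [h2]; exact h
  have hne' : (interior Ω).Nonempty := by
    rw [ho.interior_eq]
    by_contra hemp
    rw [not_nonempty_iff_eq_empty] at hemp
    rw [hemp] at hJ
    simp at hJ
  rw [hc.interior_closure_eq_interior_of_nonempty_interior hne', ho.interior_eq] at h1
  have h2 := hpos _ h1
  rw [hφ.aff, h, h'] at h2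
  simp at h2

/-- the strict triangle inequality for `E` -/
theorem E_triangle_lt (hΩ : IsHilbertPlane Ω) {a b c : Plane} (ha : a ∈ Ω) (hb : b ∈ Ω)
    (hcΩ : c ∈ Ω) (hseg : b ∉ segment ℝ a c) : E Ω a c < E Ω a b * E Ω b c := by
  have ho := hΩ.isOpen
  have hc := hΩ.convex
  have hbd := hΩ.isBounded
  have hba : a ≠ b := by
    rintro rfl; exact hseg (left_mem_segment ℝ _ _)
  have hbc : b ≠ c := by
    rintro rfl; exact hseg (right_mem_segment ℝ _ _)
  by_cases hac : a = c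
  · subst hac
    rw [E_self ho hc hbd ha]
    have h1 := one_lt_E ho hc hbd ha hb hba
    have h2 := one_lt_E ho hc hbd hb ha hbc
    nlinarith
  obtain ⟨J, s, hJ⟩ := exists_ray ho hc hbd ha hcΩ hac
  obtain ⟨φ, hφ, hpos, hφJ⟩ := exists_support ho hc hJ.1
  have h1 := E_support ho hc hφ ha hJ hφJ
  have h0 : ∀ z ∈ Ω, 0 ≤ φ z := fun z hz => (hpos z hz).le
  have h2 := E_ge ho hc hbd hφ h0 ha hb
  have h3 := E_ge ho hc hbd hφ h0 hb hcΩ
  have hE1 := one_lt_E ho hc hbd ha hb hba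
  have hE2 := one_lt_E ho hc hbd hb hcΩ hbc
  have hpc := hpos c hcΩ
  by_contra hlt
  rw [not_lt] at hlt
  -- equalities
  have h4 : E Ω a b * E Ω b c * φ c ≤ φ a := by
    rw [h1]; exact mul_le_mul_of_nonneg_right hlt hpc.le
  have h5 : φ a = E Ω a b * φ b := by
    apply le_antisymm h2
    calc E Ω a b * φ b ≤ E Ω a b * (E Ω b c * φ c) := by
            apply mul_le_mul_of_nonneg_left h3; linarith
      _ = E Ω a b * E Ω b c * φ c := by ring
      _ ≤ φ a := h4
  have h6 : φ b = E Ω b c * φ c := by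
    apply le_antisymm h3
    have : E Ω a b * (E Ω b c * φ c) ≤ E Ω a b * φ b := by
      rw [← h5]; linarith
    exact le_of_mul_le_mul_left this (by linarith)
  obtain ⟨J1, s1, hJ1⟩ := exists_ray ho hc hbd ha hb hba
  obtain ⟨J2, s2, hJ2⟩ := exists_ray ho hc hbd hb hcΩ hbc
  have h7 : φ J1 = 0 := by
    have e1 := hφ.aff a J1 s1
    rw [hJ1.2.2.2] at e1
    rw [E_eq ho hc ha hJ1] at h5
    have e2 : 1 - s1 ≠ 0 := by linarith [hJ1.2.2.1]
    have e3 : (1 - s1) * φ a = φ b := by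
      rw [h5]; field_simp
    have e4 : s1 * φ J1 = 0 := by linarith
    rcases mul_eq_zero.mp e4 with e5 | e5
    · linarith [hJ1.2.1]
    · exact e5
  have h8 : φ J2 = 0 := by
    have e1 := hφ.aff b J2 s2
    rw [hJ2.2.2.2] at e1
    rw [E_eq ho hc hb hJ2] at h6
    have e2 : 1 - s2 ≠ 0 := by linarith [hJ2.2.2.1]
    have e3 : (1 - s2) * φ b = φ c := by
      rw [h6]; field_simp
    have e4 : s2 * φ J2 = 0 := by linarith
    rcases mul_eq_zero.mp e4 with e5 | e5
    · linarith [hJ2.2.1]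
    · exact e5
  have h9 : J1 = J2 := support_unique hΩ.strictConvex ho hc hφ hpos hJ1.1.1 hJ2.1.1 h7 h8
  apply hseg
  subst h9
  obtain ⟨_, p1, q1, r1⟩ := hJ1
  obtain ⟨_, p2, q2, r2⟩ := hJ2
  rw [lineMap_eq] at r1 r2
  -- b = a + s1 (J - a), c = b + s2 (J - b)
  set D := s1 + s2 - s1 * s2 with hD
  have hDpos : 0 < D := by nlinarith
  have hle : s1 ≤ D := by nlinarith
  refine ⟨1 - s1 / D, s1 / D, ?_, by positivity, by ring, ?_⟩
  · have : s1 / D ≤ 1 := by rw [div_le_one hDpos]; exact hle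
    linarith
  · have hcD : c = a + D • (J1 - a) := by
      rw [← r2, ← r1, hD]; module
    rw [hcD, ← r1]
    have : (s1 / D) • (a + D • (J1 - a)) = (s1 / D) • a + s1 • (J1 - a) := by
      rw [smul_add, smul_smul, div_mul_cancel₀ _ hDpos.ne']
    rw [this]
    module

theorem E_add (hΩ : IsHilbertPlane Ω) {a c : Plane} (ha : a ∈ Ω)
    (hcΩ : c ∈ Ω) (hac : a ≠ c) {t : ℝ} (ht0 : 0 < t) (ht1 : t < 1) :
    E Ω a c = E Ω a (AffineMap.lineMap a c t) * E Ω (AffineMap.lineMap a c t) c := by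
  have ho := hΩ.isOpen
  have hc := hΩ.convex
  have hbd := hΩ.isBounded
  obtain ⟨J, s, hJ⟩ := exists_ray ho hc hbd ha hcΩ hac
  obtain ⟨hJf, hs0, hs1, hsc⟩ := hJ
  set b : Plane := AffineMap.lineMap a c t with hb
  have hbΩ : b ∈ Ω := by
    have := lineMap_mem_interior hc (a := a) (J := c) (by rwa [ho.interior_eq])
      (subset_closure hcΩ) ht0.le ht1
    rwa [ho.interior_eq] at this
  have h1 : Ray Ω a b J (t * s) := by
    refine ⟨hJf, by positivity, by nlinarith, ?_⟩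
    rw [hb, ← hsc, lineMap_eq, lineMap_eq, lineMap_eq]
    module
  have hts : 0 < 1 - t * s := by nlinarith
  have h2 : Ray Ω b c J ((s - t * s) / (1 - t * s)) := by
    refine ⟨hJf, by apply div_pos _ hts; nlinarith, by rw [div_lt_one hts]; linarith, ?_⟩
    have e1 : b = a + (t * s) • (J - a) := by
      rw [hb, ← hsc, lineMap_eq, lineMap_eq]; module
    rw [lineMap_eq, ← hsc, lineMap_eq, e1]
    have e2 : J - (a + (t * s) • (J - a)) = (1 - t * s) • (J - a) := by module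
    rw [e2, smul_smul, div_mul_cancel₀ _ hts.ne']
    module
  rw [E_eq ho hc ha h1, E_eq ho hc hbΩ h2, E_eq ho hc ha ⟨hJf, hs0, hs1, hsc⟩]
  have hs : 1 - s ≠ 0 := by linarith
  have hts' : 1 - t * s ≠ 0 := hts.ne'
  have e3 : 1 - (s - t * s) / (1 - t * s) = (1 - s) / (1 - t * s) := by
    rw [eq_div_iff hts', sub_mul, div_mul_cancel₀ _ hts']; ring
  rw [e3, one_div_div, one_div, one_div, ← div_eq_inv_mul, div_div,
    mul_comm (1 - s) (1 - t * s), ← div_div, div_self hts', one_div]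

/-- the Hilbert distance through `E` -/
theorem hilbertDist_eq (hΩ : IsHilbertPlane Ω) {a b : Plane} (ha : a ∈ Ω) (hb : b ∈ Ω) :
    hilbertDist Ω a b = 1 / 2 * Real.log (E Ω a b * E Ω b a) := by
  have ho := hΩ.isOpen
  have hc := hΩ.convex
  have hbd := hΩ.isBounded
  by_cases hab : a = b
  · subst hab
    rw [E_self ho hc hbd ha]
    have : {r : ℝ | ∃ I J : Plane, I ∈ frontier Ω ∧ J ∈ frontier Ω ∧
      Sbtw ℝ I a a ∧ Sbtw ℝ a a J ∧
      r = 1 / 2 * Real.log ((dist a J * dist a I) / (dist a I * dist a J))} = ∅ := by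
      ext r
      simp only [mem_ofPred_eq, mem_empty_iff_false, iff_false]
      rintro ⟨I, J, _, _, h, _⟩
      exact h.2.2 rfl
    rw [hilbertDist, this, Real.sSup_empty]
    simp
  obtain ⟨J, s, hJ⟩ := exists_ray ho hc hbd ha hb hab
  obtain ⟨I, s', hI⟩ := exists_ray ho hc hbd hb ha (Ne.symm hab)
  rw [E_eq ho hc ha hJ, E_eq ho hc hb hI]
  have haJ : a ≠ J := by
    rintro rfl
    apply hJ.1.2
    rwa [ho.interior_eq]
  have hbI : b ≠ I := by
    rintro rfl
    apply hI.1.2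
    rwa [ho.interior_eq]
  have hbJ : b ≠ J := by
    rintro rfl
    apply hJ.1.2
    rwa [ho.interior_eq]
  have haI : a ≠ I := by
    rintro rfl
    apply hI.1.2
    rwa [ho.interior_eq]
  have h1s : 0 < 1 - s := by linarith [hJ.2.2.1]
  have h1s' : 0 < 1 - s' := by linarith [hI.2.2.1]
  have hval : (dist a J * dist b I) / (dist a I * dist b J) = 1 / (1 - s) * (1 / (1 - s')) := by
    have e1 : dist b J = (1 - s) * dist a J := by
      rw [← hJ.2.2.2, dist_lineMap_right, Real.norm_of_nonneg h1s.le]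
    have e2 : dist a I = (1 - s') * dist b I := by
      rw [← hI.2.2.2, dist_lineMap_right, Real.norm_of_nonneg h1s'.le]
    have d1 : dist a J ≠ 0 := dist_ne_zero.mpr haJ
    have d2 : dist b I ≠ 0 := dist_ne_zero.mpr hbI
    rw [e1, e2]
    field_simp
  have : {r : ℝ | ∃ I J : Plane, I ∈ frontier Ω ∧ J ∈ frontier Ω ∧
      Sbtw ℝ I a b ∧ Sbtw ℝ a b J ∧
      r = 1 / 2 * Real.log ((dist a J * dist b I) / (dist a I * dist b J))} =
      {1 / 2 * Real.log (1 / (1 - s) * (1 / (1 - s')))} := by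
    ext r
    simp only [mem_ofPred_eq, mem_singleton_iff]
    constructor
    · rintro ⟨I', J', hI', hJ', h1, h2, rfl⟩
      rw [sbtw_iff_mem_image_Ioo_and_ne] at h2
      obtain ⟨⟨u, hu, hub⟩, _⟩ := h2
      have h1' := h1.symm
      rw [sbtw_iff_mem_image_Ioo_and_ne] at h1'
      obtain ⟨⟨u', hu', hua⟩, _⟩ := h1'
      have k1 := ray_unique ho hc ha hJ.1 hJ' hJ.2.1 hu.1 (hJ.2.2.2.trans hub.symm)
      have k2 := ray_unique ho hc hb hI.1 hI' hI.2.1 hu'.1 (hI.2.2.2.trans hua.symm)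
      rw [← k1.2, ← k2.2, hval]
    · rintro rfl
      refine ⟨I, J, hI.1, hJ.1, ?_, ?_, by rw [hval]⟩
      · apply Sbtw.symm
        rw [sbtw_iff_mem_image_Ioo_and_ne]
        exact ⟨⟨s', ⟨hI.2.1, hI.2.2.1⟩, hI.2.2.2⟩, hbI⟩
      · rw [sbtw_iff_mem_image_Ioo_and_ne]
        exact ⟨⟨s, ⟨hJ.2.1, hJ.2.2.1⟩, hJ.2.2.2⟩, haJ⟩
  rw [hilbertDist, this, csSup_singleton]

theorem hilbertDist_comm (hΩ : IsHilbertPlane Ω) {a b : Plane} (ha : a ∈ Ω) (hb : b ∈ Ω) :
    hilbertDist Ω a b = hilbertDist Ω b a := by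
  rw [hilbertDist_eq hΩ ha hb, hilbertDist_eq hΩ hb ha, mul_comm (E Ω a b)]

theorem hilbertDist_nonneg (hΩ : IsHilbertPlane Ω) {a b : Plane} (ha : a ∈ Ω) (hb : b ∈ Ω) :
    0 ≤ hilbertDist Ω a b := by
  rw [hilbertDist_eq hΩ ha hb]
  have h1 := one_le_E hΩ.isOpen hΩ.convex hΩ.isBounded ha hb
  have h2 := one_le_E hΩ.isOpen hΩ.convex hΩ.isBounded hb ha
  have : 0 ≤ Real.log (E Ω a b * E Ω b a) := Real.log_nonneg (by nlinarith)
  linarith

theorem hilbertDist_pos (hΩ : IsHilbertPlane Ω) {a b : Plane} (ha : a ∈ Ω) (hb : b ∈ Ω)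
    (hab : a ≠ b) : 0 < hilbertDist Ω a b := by
  rw [hilbertDist_eq hΩ ha hb]
  have h1 := one_lt_E hΩ.isOpen hΩ.convex hΩ.isBounded ha hb hab
  have h2 := one_lt_E hΩ.isOpen hΩ.convex hΩ.isBounded hb ha hab.symm
  have : 0 < Real.log (E Ω a b * E Ω b a) := Real.log_pos (by nlinarith)
  linarith

theorem hilbertDist_self (hΩ : IsHilbertPlane Ω) {a : Plane} (ha : a ∈ Ω) :
    hilbertDist Ω a a = 0 := by
  rw [hilbertDist_eq hΩ ha ha, E_self hΩ.isOpen hΩ.convex hΩ.isBounded ha]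
  simp

/-- strict triangle inequality -/
theorem hilbertDist_triangle_lt (hΩ : IsHilbertPlane Ω) {a b c : Plane} (ha : a ∈ Ω)
    (hb : b ∈ Ω) (hc : c ∈ Ω) (hseg : b ∉ segment ℝ a c) :
    hilbertDist Ω a c < hilbertDist Ω a b + hilbertDist Ω b c := by
  rw [hilbertDist_eq hΩ ha hb, hilbertDist_eq hΩ hb hc, hilbertDist_eq hΩ ha hc]
  have h1 := E_triangle_lt hΩ ha hb hc hseg
  have h2 := E_triangle_lt hΩ hc hb ha (by rwa [segment_symm])
  have p1 := one_le_E hΩ.isOpen hΩ.convex hΩ.isBounded ha hb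
  have p2 := one_le_E hΩ.isOpen hΩ.convex hΩ.isBounded hb hc
  have p3 := one_le_E hΩ.isOpen hΩ.convex hΩ.isBounded ha hc
  have q1 := one_le_E hΩ.isOpen hΩ.convex hΩ.isBounded hb ha
  have q2 := one_le_E hΩ.isOpen hΩ.convex hΩ.isBounded hc hb
  have q3 := one_le_E hΩ.isOpen hΩ.convex hΩ.isBounded hc ha
  have h3 : E Ω a c * E Ω c a < (E Ω a b * E Ω b a) * (E Ω b c * E Ω c b) := by
    calc E Ω a c * E Ω c a < (E Ω a b * E Ω b c) * (E Ω c b * E Ω b a) := by
          apply mul_lt_mul'' h1 h2 (by linarith) (by linarith)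
      _ = _ := by ring
  have h4 := Real.log_lt_log (by nlinarith) h3
  rw [Real.log_mul (x := E Ω a b * E Ω b a) (y := E Ω b c * E Ω c b)
    (by nlinarith) (by nlinarith)] at h4
  linarith

/-- additivity along segments -/
theorem hilbertDist_add (hΩ : IsHilbertPlane Ω) {a c : Plane} (ha : a ∈ Ω)
    (hc : c ∈ Ω) (hac : a ≠ c) {t : ℝ} (ht0 : 0 < t) (ht1 : t < 1) :
    hilbertDist Ω a c = hilbertDist Ω a (AffineMap.lineMap a c t)
      + hilbertDist Ω (AffineMap.lineMap a c t) c := by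
  have hbΩ : (AffineMap.lineMap a c t : Plane) ∈ Ω := by
    have := lineMap_mem_interior hΩ.convex (a := a) (J := c) (by rwa [hΩ.isOpen.interior_eq])
      (subset_closure hc) ht0.le ht1
    rwa [hΩ.isOpen.interior_eq] at this
  rw [hilbertDist_eq hΩ ha hbΩ, hilbertDist_eq hΩ hbΩ hc, hilbertDist_eq hΩ ha hc]
  have e1 := E_add hΩ ha hc hac ht0 ht1
  have e2 := E_add hΩ hc ha (Ne.symm hac) (t := 1 - t) (by linarith) (by linarith)
  have e3 : (AffineMap.lineMap c a (1 - t) : Plane) = AffineMap.lineMap a c t := by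
    rw [AffineMap.lineMap_apply_one_sub]
  rw [e3] at e2
  rw [e1, e2]
  set b : Plane := AffineMap.lineMap a c t
  have p1 := one_le_E hΩ.isOpen hΩ.convex hΩ.isBounded ha hbΩ
  have p2 := one_le_E hΩ.isOpen hΩ.convex hΩ.isBounded hbΩ hc
  have q1 := one_le_E hΩ.isOpen hΩ.convex hΩ.isBounded hbΩ ha
  have q2 := one_le_E hΩ.isOpen hΩ.convex hΩ.isBounded hc hbΩ
  rw [show E Ω a b * E Ω b c * (E Ω c b * E Ω b a) = (E Ω a b * E Ω b a) * (E Ω b c * E Ω c b) by ring]
  rw [Real.log_mul (by nlinarith) (by nlinarith)]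
  ring

/-- the distance to a set realised by a foot -/
theorem distTo_eq (hΩ : IsHilbertPlane Ω) {L : Set Plane} (hL : L ⊆ Ω) {X Y : Plane}
    (hX : X ∈ Ω) (hY : Y ∈ L)
    (hmin : ∀ Y' ∈ L, E Ω X Y * E Ω Y X ≤ E Ω X Y' * E Ω Y' X) :
    distTo Ω X L = hilbertDist Ω X Y := by
  apply le_antisymm
  · apply csInf_le
    · refine ⟨0, ?_⟩
      rintro _ ⟨Z, hZ, rfl⟩
      exact hilbertDist_nonneg hΩ hX (hL hZ)
    · exact ⟨Y, hY, rfl⟩
  · apply le_csInf (Set.Nonempty.image _ ⟨Y, hY⟩)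
    rintro _ ⟨Z, hZ, rfl⟩
    simp only
    rw [hilbertDist_eq hΩ hX (hL hY), hilbertDist_eq hΩ hX (hL hZ)]
    have p1 := one_le_E hΩ.isOpen hΩ.convex hΩ.isBounded hX (hL hY)
    have p2 := one_le_E hΩ.isOpen hΩ.convex hΩ.isBounded (hL hY) hX
    have := Real.log_le_log (by nlinarith) (hmin Z hZ)
    linarith

theorem distTo_le (hΩ : IsHilbertPlane Ω) {L : Set Plane} (hL : L ⊆ Ω) {X Y : Plane}
    (hX : X ∈ Ω) (hY : Y ∈ L) : distTo Ω X L ≤ hilbertDist Ω X Y := by
  apply csInf_le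
  · refine ⟨0, ?_⟩
    rintro _ ⟨Z, hZ, rfl⟩
    exact hilbertDist_nonneg hΩ hX (hL hZ)
  · exact ⟨Y, hY, rfl⟩

end Pool.Agent.Lib.MP_3498ef_gt
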