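import Pool.Agent.Lib.MP_3498ef_gt.Param
import Pool.Agent.Lib.MP_3498ef_gt.Hilbert

set_option autoImplicit false

open Set

namespace Pool.Agent.Lib.MP_3498ef_gt

theorem pt_ext {Z W : Plane} (h0 : Z 0 = W 0) (h1 : Z 1 = W 1) : Z = W := by
  ext i; fin_cases i
  · exact h0
  · exact h1

theorem lm0 (a b : Plane) (t : ℝ) :
    (AffineMap.lineMap a b t : Plane) 0 = (1 - t) * a 0 + t * b 0 := by
  rw [lineMap_eq]; simp; ring

theorem lm1 (a b : Plane) (t : ℝ) :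
    (AffineMap.lineMap a b t : Plane) 1 = (1 - t) * a 1 + t * b 1 := by
  rw [lineMap_eq]; simp; ring

noncomputable def pt (x y : ℝ) : Plane := !₂[x, y]

@[simp] theorem pt0 (x y : ℝ) : pt x y 0 = x := by simp [pt]
@[simp] theorem pt1 (x y : ℝ) : pt x y 1 = y := by simp [pt]

noncomputable def Ux (Z : Plane) : ℝ := 5 * Z 0 - 4
noncomputable def Vx (Z : Plane) : ℝ := 3 * Z 1
noncomputable def Rx (Z : Plane) : ℝ := Real.sqrt (Ux Z ^ 2 + Vx Z ^ 2)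
noncomputable def Gx (Z : Plane) : ℝ :=
  Z 0 ^ 2 + Z 1 ^ 2 + (max (27 * Z 0 + 19 * Z 1 - 33) 0) ^ 2

theorem Rx_sq (Z : Plane) : Rx Z ^ 2 = Ux Z ^ 2 + Vx Z ^ 2 :=
  Real.sq_sqrt (by positivity)

theorem Rx_nonneg (Z : Plane) : 0 ≤ Rx Z := Real.sqrt_nonneg _

theorem cont_Ux : Continuous Ux := by unfold Ux; fun_prop
theorem cont_Vx : Continuous Vx := by unfold Vx; fun_prop
theorem cont_Rx : Continuous Rx := by
  unfold Rx; have := cont_Ux; have := cont_Vx; fun_prop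
theorem cont_Gx : Continuous Gx := by unfold Gx; fun_prop

/-- the domain -/
def Om : Set Plane := {Z | Gx Z < 1 ∧ ∀ s ∈ I0, Cone (Ux Z) (Vx Z) → 3 * Z 0 ≤ Rx Z →
  0 < PhiQ (aa s) (ap s) (hh s) (Rx Z) (Ux Z) (Vx Z)}

/-- its closure -/
def Kc : Set Plane := {Z | Gx Z ≤ 1 ∧ ∀ s ∈ I0, Cone (Ux Z) (Vx Z) → 3 * Z 0 ≤ Rx Z →
  0 ≤ PhiQ (aa s) (ap s) (hh s) (Rx Z) (Ux Z) (Vx Z)}

noncomputable def Hz (s : ℝ) (Z : Plane) : ℝ := Hq (aa s) (ap s) (hh s) (Rx Z) (Ux Z) (Vx Z)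

theorem Rx_pos_of {Z : Plane} (h : 3 * Z 0 ≤ Rx Z) : 0 < Rx Z := by
  rcases eq_or_lt_of_le (Rx_nonneg Z) with h0 | h0
  · exfalso
    have h1 := Rx_sq Z
    rw [← h0] at h1 h
    have hU : Ux Z = 0 := by nlinarith [sq_nonneg (Ux Z), sq_nonneg (Vx Z)]
    unfold Ux at hU
    linarith
  · exact h0

theorem Hz_of_Rx_zero {s : ℝ} {Z : Plane} (h : Rx Z = 0) : Hz s Z = 0 := by
  have h1 := Rx_sq Z
  rw [h] at h1
  have hU : Ux Z = 0 := by nlinarith [sq_nonneg (Ux Z), sq_nonneg (Vx Z)]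
  have hV : Vx Z = 0 := by nlinarith [sq_nonneg (Ux Z), sq_nonneg (Vx Z)]
  unfold Hz
  rw [h, hU, hV]; exact H_zero

theorem Hz_lt_of_lt {s : ℝ} (hs : s ∈ I0) {Z : Plane} (C : Cone (Ux Z) (Vx Z))
    (h : Rx Z ≤ 3 * Z 0) : Hz s Z < 1 := by
  rcases eq_or_lt_of_le (Rx_nonneg Z) with h0 | h0
  · rw [Hz_of_Rx_zero h0.symm]; norm_num
  · apply H_lt_one_of (par_of hs) C (Rx_sq Z) h0
    unfold Ux; linarith

theorem mem_Om_iff {Z : Plane} :
    Z ∈ Om ↔ Gx Z < 1 ∧ ∀ s ∈ I0, Cone (Ux Z) (Vx Z) → Hz s Z < 1 := by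
  constructor
  · rintro ⟨h1, h2⟩
    refine ⟨h1, fun s hs C => ?_⟩
    rcases le_total (3 * Z 0) (Rx Z) with h | h
    · exact (Phi_pos_iff (par_of hs) C (Rx_sq Z) (Rx_pos_of h)).mp (h2 s hs C h)
    · exact Hz_lt_of_lt hs C h
  · rintro ⟨h1, h2⟩
    refine ⟨h1, fun s hs C h => ?_⟩
    exact (Phi_pos_iff (par_of hs) C (Rx_sq Z) (Rx_pos_of h)).mpr (h2 s hs C)

theorem mem_Kc_iff {Z : Plane} :
    Z ∈ Kc ↔ Gx Z ≤ 1 ∧ ∀ s ∈ I0, Cone (Ux Z) (Vx Z) → Hz s Z ≤ 1 := by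
  constructor
  · rintro ⟨h1, h2⟩
    refine ⟨h1, fun s hs C => ?_⟩
    rcases le_total (3 * Z 0) (Rx Z) with h | h
    · exact (Phi_nonneg_iff (par_of hs) C (Rx_sq Z) (Rx_pos_of h)).mp (h2 s hs C h)
    · exact (Hz_lt_of_lt hs C h).le
  · rintro ⟨h1, h2⟩
    refine ⟨h1, fun s hs C h => ?_⟩
    exact (Phi_nonneg_iff (par_of hs) C (Rx_sq Z) (Rx_pos_of h)).mpr (h2 s hs C)

theorem Om_subset_Kc : Om ⊆ Kc := by
  intro Z hZ
  rw [mem_Om_iff] at hZ
  rw [mem_Kc_iff]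
  exact ⟨hZ.1.le, fun s hs C => (hZ.2 s hs C).le⟩

theorem disc_of_G {Z : Plane} (h : Gx Z ≤ 1) : Z 0 ^ 2 + Z 1 ^ 2 ≤ 1 := by
  unfold Gx at h
  nlinarith [sq_nonneg (max (27 * Z 0 + 19 * Z 1 - 33) 0)]

theorem disc_of_G_lt {Z : Plane} (h : Gx Z < 1) : Z 0 ^ 2 + Z 1 ^ 2 < 1 := by
  unfold Gx at h
  nlinarith [sq_nonneg (max (27 * Z 0 + 19 * Z 1 - 33) 0)]

/-- on the disc, `R < 5 - 4x` -/
theorem Rx_lt_of_disc {Z : Plane} (h : Z 0 ^ 2 + Z 1 ^ 2 < 1) : Rx Z < 5 - 4 * Z 0 := by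
  have h1 := Rx_sq Z
  have h2 : Z 0 < 1 := by nlinarith [sq_nonneg (Z 1)]
  unfold Ux Vx at h1
  nlinarith [Rx_nonneg Z]

theorem Rx_le_of_disc {Z : Plane} (h : Z 0 ^ 2 + Z 1 ^ 2 ≤ 1) : Rx Z ≤ 5 - 4 * Z 0 := by
  have h1 := Rx_sq Z
  have h2 : Z 0 ≤ 1 := by nlinarith [sq_nonneg (Z 1)]
  unfold Ux Vx at h1
  nlinarith [Rx_nonneg Z]

theorem Rx_eq_of_circle {Z : Plane} (h : Z 0 ^ 2 + Z 1 ^ 2 = 1) : Rx Z = 5 - 4 * Z 0 := by
  have h1 := Rx_sq Z
  have h2 : Z 0 ≤ 1 := by nlinarith [sq_nonneg (Z 1)]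
  unfold Ux Vx at h1
  have h3 : Rx Z ^ 2 = (5 - 4 * Z 0) ^ 2 := by rw [h1]; linear_combination 9 * h
  exact (pow_left_inj₀ (Rx_nonneg Z) (by linarith) (by norm_num)).mp h3

/-- the boundary lemma -/
theorem Hz_bdry {s : ℝ} (hs : s ∈ I0) {Z : Plane} (C : Cone (Ux Z) (Vx Z))
    (hb : 15 * Ux Z + 8 * Vx Z = 0 ∨ 12 * Ux Z + 5 * Vx Z = 0) :
    Hz s Z ≤ (5 * Rx Z + 4 * Ux Z) / 9 := by
  rcases eq_or_lt_of_le (Rx_nonneg Z) with h0 | h0
  · rw [Hz_of_Rx_zero h0.symm, ← h0]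
    have h1 := Rx_sq Z
    rw [← h0] at h1
    have hU : Ux Z = 0 := by nlinarith [sq_nonneg (Ux Z), sq_nonneg (Vx Z)]
    rw [hU]; norm_num
  · rcases hb with hb | hb
    · exact H_bdry2 (par_of hs) (Rx_sq Z) h0 C.V_nonneg hb
    · exact H_bdry1 (par_of hs) (Rx_sq Z) h0 C.V_nonneg hb

theorem Hz_bdry_lt {s : ℝ} (hs : s ∈ I0) {Z : Plane} (C : Cone (Ux Z) (Vx Z))
    (hb : 15 * Ux Z + 8 * Vx Z = 0 ∨ 12 * Ux Z + 5 * Vx Z = 0) (hG : Gx Z < 1) :
    Hz s Z < 1 := by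
  have h1 := Hz_bdry hs C hb
  have h2 := Rx_lt_of_disc (disc_of_G_lt hG)
  have h3 : Ux Z = 5 * Z 0 - 4 := rfl
  linarith

theorem exit_lemma {g1 g2 k1 k2 : ℝ} (h1 : 0 ≤ g1) (h2 : 0 ≤ g2) :
    ∃ r : ℝ, 0 ≤ r ∧ r ≤ 1 ∧ 0 ≤ (1 - r) * g1 + r * k1 ∧ 0 ≤ (1 - r) * g2 + r * k2 ∧
      (r = 1 ∨ (1 - r) * g1 + r * k1 = 0 ∨ (1 - r) * g2 + r * k2 = 0) := by
  have key : ∀ {g1 g2 k1 k2 : ℝ}, 0 ≤ g1 → 0 ≤ g2 → k1 < 0 →
      0 ≤ (1 - g1 / (g1 - k1)) * g2 + g1 / (g1 - k1) * k2 →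
      ∃ r : ℝ, 0 ≤ r ∧ r ≤ 1 ∧ (1 - r) * g1 + r * k1 = 0 ∧ 0 ≤ (1 - r) * g2 + r * k2 := by
    intro g1 g2 k1 k2 h1 h2 hk hcond
    have hd : 0 < g1 - k1 := by linarith
    refine ⟨g1 / (g1 - k1), by positivity, ?_, ?_, hcond⟩
    · rw [div_le_one hd]; linarith
    · have : g1 / (g1 - k1) * (g1 - k1) = g1 := div_mul_cancel₀ _ hd.ne'
      linear_combination -this
  by_cases hk1 : 0 ≤ k1
  · by_cases hk2 : 0 ≤ k2
    · exact ⟨1, by norm_num, le_refl _, by simpa using hk1, by simpa using hk2, Or.inl rfl⟩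
    · rw [not_le] at hk2
      have hd : 0 < g2 - k2 := by linarith
      have hr1 : g2 / (g2 - k2) ≤ 1 := by rw [div_le_one hd]; linarith
      have hr0 : 0 ≤ g2 / (g2 - k2) := by positivity
      obtain ⟨r, a, b, c, d⟩ := key h2 h1 hk2 (k2 := k1) (by
        apply add_nonneg (mul_nonneg (by linarith) h1) (mul_nonneg hr0 hk1))
      exact ⟨r, a, b, d, c.ge, Or.inr (Or.inr c)⟩
  · rw [not_le] at hk1
    have hd : 0 < g1 - k1 := by linarith
    have hr1 : g1 / (g1 - k1) ≤ 1 := by rw [div_le_one hd]; linarith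
    have hr0 : 0 ≤ g1 / (g1 - k1) := by positivity
    by_cases hc : 0 ≤ (1 - g1 / (g1 - k1)) * g2 + g1 / (g1 - k1) * k2
    · obtain ⟨r, a, b, c, d⟩ := key h1 h2 hk1 hc
      exact ⟨r, a, b, c.ge, d, Or.inr (Or.inl c)⟩
    · rw [not_le] at hc
      have hk2 : k2 < 0 := by
        by_contra hk
        rw [not_lt] at hk
        have := mul_nonneg (show 0 ≤ 1 - g1 / (g1 - k1) by linarith) h2
        have := mul_nonneg hr0 hk
        linarith
      have hd2 : 0 < g2 - k2 := by linarith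
      -- the exit time for g2 is smaller
      have hlt : g2 / (g2 - k2) ≤ g1 / (g1 - k1) := by
        by_contra hh
        rw [not_le] at hh
        have e1 : g2 / (g2 - k2) * (g2 - k2) = g2 := div_mul_cancel₀ _ hd2.ne'
        have : g1 / (g1 - k1) * (g2 - k2) < g2 := by
          calc g1 / (g1 - k1) * (g2 - k2) < g2 / (g2 - k2) * (g2 - k2) :=
                mul_lt_mul_of_pos_right hh hd2
            _ = g2 := e1
        linarith
      obtain ⟨r, a, b, c, d⟩ := key h2 h1 hk2 (k2 := k1) (by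
        have e1 : g1 / (g1 - k1) * (g1 - k1) = g1 := div_mul_cancel₀ _ hd.ne'
        have : g2 / (g2 - k2) * (g1 - k1) ≤ g1 := by
          calc g2 / (g2 - k2) * (g1 - k1) ≤ g1 / (g1 - k1) * (g1 - k1) :=
                mul_le_mul_of_nonneg_right hlt hd.le
            _ = g1 := e1
        linarith)
      exact ⟨r, a, b, d, c.ge, Or.inr (Or.inr c)⟩

theorem Ux_lm (a b : Plane) (t : ℝ) :
    Ux (AffineMap.lineMap a b t) = (1 - t) * Ux a + t * Ux b := by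
  unfold Ux; rw [lm0]; ring
theorem Vx_lm (a b : Plane) (t : ℝ) :
    Vx (AffineMap.lineMap a b t) = (1 - t) * Vx a + t * Vx b := by
  unfold Vx; rw [lm1]; ring

/-- convexity of `Gx`, quantitative -/
theorem Gx_lm (a b : Plane) {t : ℝ} (h0 : 0 ≤ t) (h1 : t ≤ 1) :
    Gx (AffineMap.lineMap a b t) ≤ (1 - t) * Gx a + t * Gx b
      - t * (1 - t) * ((a 0 - b 0) ^ 2 + (a 1 - b 1) ^ 2) := by
  unfold Gx
  rw [lm0, lm1]
  set Ma := max (27 * a 0 + 19 * a 1 - 33) 0 with hMa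
  set Mb := max (27 * b 0 + 19 * b 1 - 33) 0 with hMb
  have hMa0 : 0 ≤ Ma := le_max_right _ _
  have hMb0 : 0 ≤ Mb := le_max_right _ _
  have hMa1 : 27 * a 0 + 19 * a 1 - 33 ≤ Ma := le_max_left _ _
  have hMb1 : 27 * b 0 + 19 * b 1 - 33 ≤ Mb := le_max_left _ _
  have hM : max (27 * ((1 - t) * a 0 + t * b 0) + 19 * ((1 - t) * a 1 + t * b 1) - 33) 0
      ≤ (1 - t) * Ma + t * Mb := by
    apply max_le
    · have e1 := mul_le_mul_of_nonneg_left hMa1 (sub_nonneg.mpr h1)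
      have e2 := mul_le_mul_of_nonneg_left hMb1 h0
      linarith
    · have e1 := mul_nonneg (sub_nonneg.mpr h1) hMa0
      have e2 := mul_nonneg h0 hMb0
      linarith
  have hM0 : 0 ≤ max (27 * ((1 - t) * a 0 + t * b 0) + 19 * ((1 - t) * a 1 + t * b 1) - 33) 0 :=
    le_max_right _ _
  have hsq := pow_le_pow_left₀ hM0 hM 2
  have hsq2 : ((1 - t) * Ma + t * Mb) ^ 2 ≤ (1 - t) * Ma ^ 2 + t * Mb ^ 2 := by
    have e : (1 - t) * Ma ^ 2 + t * Mb ^ 2 - ((1 - t) * Ma + t * Mb) ^ 2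
        = t * (1 - t) * (Ma - Mb) ^ 2 := by ring
    have : 0 ≤ t * (1 - t) * (Ma - Mb) ^ 2 := by
      have : 0 ≤ 1 - t := by linarith
      positivity
    linarith
  have e : (1 - t) * (a 0 ^ 2 + a 1 ^ 2) + t * (b 0 ^ 2 + b 1 ^ 2)
      - t * (1 - t) * ((a 0 - b 0) ^ 2 + (a 1 - b 1) ^ 2)
      = ((1 - t) * a 0 + t * b 0) ^ 2 + ((1 - t) * a 1 + t * b 1) ^ 2 := by ring
  linarith

theorem Gx_lm_lt {a b : Plane} {t : ℝ} (h0 : 0 < t) (h1 : t < 1) (hab : a ≠ b)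
    (ha : Gx a ≤ 1) (hb : Gx b ≤ 1) : Gx (AffineMap.lineMap a b t) < 1 := by
  have key := Gx_lm a b h0.le h1.le
  have hpos : 0 < (a 0 - b 0) ^ 2 + (a 1 - b 1) ^ 2 := by
    by_contra hcon
    rw [not_lt] at hcon
    apply hab
    apply pt_ext
    · nlinarith [sq_nonneg (a 0 - b 0), sq_nonneg (a 1 - b 1)]
    · nlinarith [sq_nonneg (a 0 - b 0), sq_nonneg (a 1 - b 1)]
  have h2 : 0 < t * (1 - t) * ((a 0 - b 0) ^ 2 + (a 1 - b 1) ^ 2) := by
    have : 0 < 1 - t := by linarith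
    positivity
  have h3 := mul_le_mul_of_nonneg_left ha (show 0 ≤ 1 - t by linarith)
  have h4 := mul_le_mul_of_nonneg_left hb h0.le
  linarith

/-- exit point: moving from `Z` (in the cone, `G < 1`) to `Z1 ∈ Kc`. -/
theorem exit_point {s : ℝ} (hs : s ∈ I0) {Z Z1 : Plane} (C : Cone (Ux Z) (Vx Z))
    (hG : Gx Z < 1) (hZ1 : Z1 ∈ Kc) :
    ∃ r : ℝ, 0 ≤ r ∧ r ≤ 1 ∧ Cone (Ux (AffineMap.lineMap Z Z1 r)) (Vx (AffineMap.lineMap Z Z1 r)) ∧
      Hz s (AffineMap.lineMap Z Z1 r) ≤ 1 ∧ (r = 1 ∨ Hz s (AffineMap.lineMap Z Z1 r) < 1) := by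
  obtain ⟨r, r0, r1, c1, c2, hor⟩ := exit_lemma (g1 := 15 * Ux Z + 8 * Vx Z)
    (g2 := -(12 * Ux Z + 5 * Vx Z)) (k1 := 15 * Ux Z1 + 8 * Vx Z1)
    (k2 := -(12 * Ux Z1 + 5 * Vx Z1)) C.c1 (by linarith [C.c2])
  have hU := Ux_lm Z Z1 r
  have hV := Vx_lm Z Z1 r
  have CC : Cone (Ux (AffineMap.lineMap Z Z1 r)) (Vx (AffineMap.lineMap Z Z1 r)) := by
    constructor
    · rw [hU, hV]; linarith
    · rw [hU, hV]; linarith
  refine ⟨r, r0, r1, CC, ?_⟩
  by_cases hr : r = 1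
  · subst hr
    rw [AffineMap.lineMap_apply_one] at CC ⊢
    exact ⟨(mem_Kc_iff.mp hZ1).2 s hs CC, Or.inl rfl⟩
  · have hr1 : r < 1 := lt_of_le_of_ne r1 hr
    have hGr : Gx (AffineMap.lineMap Z Z1 r) < 1 := by
      have key := Gx_lm Z Z1 r0 r1
      have h2 : 0 ≤ r * (1 - r) * ((Z 0 - Z1 0) ^ 2 + (Z 1 - Z1 1) ^ 2) := by
        have : 0 ≤ 1 - r := by linarith
        positivity
      have h3 := mul_lt_mul_of_pos_left hG (show 0 < 1 - r by linarith)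
      have h4 := mul_le_mul_of_nonneg_left (mem_Kc_iff.mp hZ1).1 r0
      linarith
    have hlt : Hz s (AffineMap.lineMap Z Z1 r) < 1 := by
      apply Hz_bdry_lt hs CC _ hGr
      rcases hor with h | h | h
      · exact absurd h hr
      · left; rw [hU, hV]; linarith
      · right; rw [hU, hV]; linarith
    exact ⟨hlt.le, Or.inr hlt⟩

/-- strict convexity -/
theorem strict_conv {Z1 Z2 : Plane} (h1 : Z1 ∈ Kc) (h2 : Z2 ∈ Kc) (hne : Z1 ≠ Z2) {t : ℝ}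
    (ht0 : 0 < t) (ht1 : t < 1) : AffineMap.lineMap Z1 Z2 t ∈ Om := by
  rw [mem_Om_iff]
  set Z : Plane := AffineMap.lineMap Z1 Z2 t with hZ
  have hG : Gx Z < 1 := Gx_lm_lt ht0 ht1 hne (mem_Kc_iff.mp h1).1 (mem_Kc_iff.mp h2).1
  refine ⟨hG, fun s hs C => ?_⟩
  have P := par_of hs
  rcases eq_or_lt_of_le (Rx_nonneg Z) with hR | hR
  · rw [Hz_of_Rx_zero hR.symm]; norm_num
  obtain ⟨r1, r10, r11, C1, H1, hor1⟩ := exit_point hs C hG h1
  obtain ⟨r2, r20, r21, C2, H2, hor2⟩ := exit_point hs C hG h2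
  -- degenerate cases
  rcases eq_or_lt_of_le r10 with e1 | r1pos
  · rw [← e1] at hor1
    rcases hor1 with h | h
    · norm_num at h
    · simpa using h
  rcases eq_or_lt_of_le r20 with e2 | r2pos
  · rw [← e2] at hor2
    rcases hor2 with h | h
    · norm_num at h
    · simpa using h
  -- Z is a strict convex combination of the two exit points
  set W1 : Plane := AffineMap.lineMap Z Z1 r1 with hW1
  set W2 : Plane := AffineMap.lineMap Z Z2 r2 with hW2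
  -- Z = (1-q) W1 + q W2 with q = t... solve
  have hU1 := Ux_lm Z Z1 r1
  have hV1 := Vx_lm Z Z1 r1
  have hU2 := Ux_lm Z Z2 r2
  have hV2 := Vx_lm Z Z2 r2
  have hUZ := Ux_lm Z1 Z2 t
  have hVZ := Vx_lm Z1 Z2 t
  rw [← hW1] at hU1 hV1
  rw [← hW2] at hU2 hV2
  rw [← hZ] at hUZ hVZ
  have hden : 0 < (1 - t) * r2 + t * r1 := by
    have : 0 < 1 - t := by linarith
    positivity
  set q := t * r1 / ((1 - t) * r2 + t * r1) with hq
  have hq0 : 0 < q := by positivity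
  have hq1 : q < 1 := by
    rw [hq, div_lt_one hden]
    have : 0 < (1 - t) * r2 := mul_pos (by linarith) r2pos
    linarith
  have hqd : q * ((1 - t) * r2 + t * r1) = t * r1 := by rw [hq]; field_simp
  have hUq : Ux Z = (1 - q) * Ux W1 + q * Ux W2 := by
    have e : ((1 - t) * r2 + t * r1) * (Ux Z - ((1 - q) * Ux W1 + q * Ux W2)) = 0 := by
      rw [hU1, hU2, hUZ]
      linear_combination (-(r1 * ((1 - t) * Ux Z1 + t * Ux Z2 - Ux Z1)
        - r2 * ((1 - t) * Ux Z1 + t * Ux Z2 - Ux Z2))) * hqd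
    rcases mul_eq_zero.mp e with h | h
    · exact absurd h hden.ne'
    · linarith
  have hVq : Vx Z = (1 - q) * Vx W1 + q * Vx W2 := by
    have e : ((1 - t) * r2 + t * r1) * (Vx Z - ((1 - q) * Vx W1 + q * Vx W2)) = 0 := by
      rw [hV1, hV2, hVZ]
      linear_combination (-(r1 * ((1 - t) * Vx Z1 + t * Vx Z2 - Vx Z1)
        - r2 * ((1 - t) * Vx Z1 + t * Vx Z2 - Vx Z2))) * hqd
    rcases mul_eq_zero.mp e with h | h
    · exact absurd h hden.ne'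
    · linarith
  have conv := H_conv P C1 C2 (Rx_sq W1) (Rx_nonneg W1) (Rx_sq W2) (Rx_nonneg W2)
    (Rx_sq Z) hR hq0.le hq1.le hUq hVq
  change Hz s Z ≤ (1 - q) * Hz s W1 + q * Hz s W2 at conv
  by_cases hl1 : Hz s W1 < 1
  · have e1 := mul_lt_mul_of_pos_left hl1 (show 0 < 1 - q by linarith)
    have e2 := mul_le_mul_of_nonneg_left H2 hq0.le
    linarith
  by_cases hl2 : Hz s W2 < 1
  · have e1 := mul_lt_mul_of_pos_left hl2 hq0
    have e2 := mul_le_mul_of_nonneg_left H1 (show 0 ≤ 1 - q by linarith)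
    linarith
  have hE1 : Hz s W1 = 1 := le_antisymm H1 (not_lt.mp hl1)
  have hE2 : Hz s W2 = 1 := le_antisymm H2 (not_lt.mp hl2)
  have hr1 : r1 = 1 := by
    rcases hor1 with h | h
    · exact h
    · exact absurd h hl1
  have hr2 : r2 = 1 := by
    rcases hor2 with h | h
    · exact h
    · exact absurd h hl2
  have hRW1 : 0 < Rx W1 := by
    rcases eq_or_lt_of_le (Rx_nonneg W1) with h | h
    · rw [Hz_of_Rx_zero h.symm] at hE1; norm_num at hE1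
    · exact h
  have hRW2 : 0 < Rx W2 := by
    rcases eq_or_lt_of_le (Rx_nonneg W2) with h | h
    · rw [Hz_of_Rx_zero h.symm] at hE2; norm_num at hE2
    · exact h
  by_cases hdir : Ux W1 / Rx W1 = Ux Z / Rx Z
  · -- parallel: then W1 = W2, contradiction
    exfalso
    obtain ⟨hu, Cu⟩ := C.unit (Rx_sq Z) hR
    obtain ⟨hu1, Cu1⟩ := C1.unit (Rx_sq W1) hRW1
    obtain ⟨a1, a2, a3, a4⟩ := cone_range hu Cu.c1 Cu.c2
    obtain ⟨b1, b2, b3, b4⟩ := cone_range hu1 Cu1.c1 Cu1.c2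
    have hdirV : Vx W1 / Rx W1 = Vx Z / Rx Z := by
      have : (Vx W1 / Rx W1) ^ 2 = (Vx Z / Rx Z) ^ 2 := by
        rw [hdir] at hu1; linarith
      exact (pow_left_inj₀ (by linarith) (by linarith) (by norm_num)).mp this
    -- W1 = lam Z as vectors
    set lam := Rx W1 / Rx Z with hlam
    have hlpos : 0 < lam := by positivity
    have hRl : Rx W1 = lam * Rx Z := by rw [hlam]; field_simp
    have hUl : Ux W1 = lam * Ux Z := by
      have : Ux W1 = Rx W1 * (Ux W1 / Rx W1) := by field_simp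
      rw [this, hdir, hlam]; field_simp
    have hVl : Vx W1 = lam * Vx Z := by
      have : Vx W1 = Rx W1 * (Vx W1 / Rx W1) := by field_simp
      rw [this, hdirV, hlam]; field_simp
    have hH1 : Hz s W1 = lam * Hz s Z := by
      unfold Hz; rw [hRl, hUl, hVl, H_smul hlpos]
    -- W2 also parallel
    set mu := (1 - (1 - q) * lam) / q with hmu
    have hmuq : q * mu = 1 - (1 - q) * lam := by rw [hmu]; field_simp
    have hU2' : Ux W2 = mu * Ux Z := by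
      have : q * Ux W2 = q * (mu * Ux Z) := by
        have : q * (mu * Ux Z) = (q * mu) * Ux Z := by ring
        rw [this, hmuq]
        rw [hUl] at hUq
        linarith
      exact mul_left_cancel₀ hq0.ne' this
    have hV2' : Vx W2 = mu * Vx Z := by
      have : q * Vx W2 = q * (mu * Vx Z) := by
        have : q * (mu * Vx Z) = (q * mu) * Vx Z := by ring
        rw [this, hmuq]
        rw [hVl] at hVq
        linarith
      exact mul_left_cancel₀ hq0.ne' this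
    have hVZpos : 0 < Vx Z := by
      have : Vx Z = Rx Z * (Vx Z / Rx Z) := by field_simp
      rw [this]; apply mul_pos hR; linarith
    have hmu0 : 0 < mu := by
      have hV2nn := C2.V_nonneg
      rw [hV2'] at hV2nn
      have hmu_nn : 0 ≤ mu := nonneg_of_mul_nonneg_left hV2nn hVZpos
      rcases eq_or_lt_of_le hmu_nn with h | h
      · exfalso
        rw [← h] at hU2' hV2'
        have := Rx_sq W2
        rw [hU2', hV2'] at this
        nlinarith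
      · exact h
    have hRW2' : Rx W2 = mu * Rx Z := by
      have h3 : Rx W2 ^ 2 = (mu * Rx Z) ^ 2 := by
        have hZ2 := Rx_sq Z
        rw [Rx_sq, hU2', hV2']
        linear_combination (-(mu ^ 2)) * hZ2
      exact (pow_left_inj₀ (Rx_nonneg _) (by positivity) (by norm_num)).mp h3
    have hH2 : Hz s W2 = mu * Hz s Z := by
      unfold Hz; rw [hRW2', hU2', hV2', H_smul hmu0]
    rw [hE1] at hH1
    rw [hE2] at hH2
    have hHZ : Hz s Z ≠ 0 := by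
      intro h; rw [h] at hH1; simp at hH1
    have hlm : lam = mu := by
      apply mul_right_cancel₀ hHZ
      rw [← hH1, ← hH2]
    -- so W1 = W2 in coordinates
    have hWU : Ux W1 = Ux W2 := by rw [hUl, hU2', hlm]
    have hWV : Vx W1 = Vx W2 := by rw [hVl, hV2', hlm]
    apply hne
    have e1 : W1 = Z1 := by rw [hW1, hr1, AffineMap.lineMap_apply_one]
    have e2 : W2 = Z2 := by rw [hW2, hr2, AffineMap.lineMap_apply_one]
    rw [← e1, ← e2]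
    apply pt_ext
    · unfold Ux at hWU; linarith
    · unfold Vx at hWV; linarith
  · have := H_conv_lt P C1 C2 (Rx_sq W1) hRW1 (Rx_sq W2) (Rx_nonneg W2)
      (Rx_sq Z) hR hq0 hq1 hUq hVq hdir
    change Hz s Z < (1 - q) * Hz s W1 + q * Hz s W2 at this
    rw [hE1, hE2] at this
    linarith

end Pool.Agent.Lib.MP_3498ef_gt
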