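import Pool.Agent.Lib.MP_3498ef_gt.Domain

set_option autoImplicit false

open Set

namespace Pool.Agent.Lib.MP_3498ef_gt

theorem cont_Phi_gen {X : Type*} [TopologicalSpace X] {f1 f2 f3 f4 f5 f6 : X → ℝ}
    (h1 : Continuous f1) (h2 : Continuous f2) (h3 : Continuous f3) (h4 : Continuous f4)
    (h5 : Continuous f5) (h6 : Continuous f6) :
    Continuous (fun x => PhiQ (f1 x) (f2 x) (f3 x) (f4 x) (f5 x) (f6 x)) := by
  unfold PhiQ Aq Bq
  fun_prop

theorem isCompact_I0 : IsCompact I0 := isCompact_Icc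

theorem isOpen_Om : IsOpen Om := by
  have hc : CompactSpace ↥I0 := isCompact_iff_compactSpace.mp isCompact_I0
  have h1 : Continuous (fun s : ↥I0 => aa s) :=
    continuousOn_iff_continuous_domRestrict.mp contOn_aa
  have h2 : Continuous (fun s : ↥I0 => ap s) :=
    continuousOn_iff_continuous_domRestrict.mp contOn_ap
  have h3 : Continuous (fun s : ↥I0 => hh s) :=
    continuousOn_iff_continuous_domRestrict.mp contOn_hh
  have h4 : Continuous (fun q : (↥I0) × Plane => Rx q.2) := cont_Rx.comp continuous_snd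
  have h5 : Continuous (fun q : (↥I0) × Plane => Ux q.2) := cont_Ux.comp continuous_snd
  have h6 : Continuous (fun q : (↥I0) × Plane => Vx q.2) := cont_Vx.comp continuous_snd
  have h7 : Continuous (fun q : (↥I0) × Plane => q.2 0) := by fun_prop
  let S : Set ((↥I0) × Plane) := {q | 0 ≤ 15 * Ux q.2 + 8 * Vx q.2} ∩
    ({q | 12 * Ux q.2 + 5 * Vx q.2 ≤ 0} ∩ ({q | 3 * q.2 0 ≤ Rx q.2} ∩
    {q | PhiQ (aa q.1) (ap q.1) (hh q.1) (Rx q.2) (Ux q.2) (Vx q.2) ≤ 0}))
  have hS : IsClosed S := by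
    apply IsClosed.inter (isClosed_le continuous_const
      ((continuous_const.mul h5).add (continuous_const.mul h6)))
    apply IsClosed.inter (isClosed_le
      ((continuous_const.mul h5).add (continuous_const.mul h6)) continuous_const)
    apply IsClosed.inter (isClosed_le (continuous_const.mul h7) h4)
    exact isClosed_le (cont_Phi_gen (h1.comp continuous_fst) (h2.comp continuous_fst)
      (h3.comp continuous_fst) h4 h5 h6) continuous_const
  have himg : IsClosed (Prod.snd '' S) := isClosedMap_snd_of_compactSpace S hS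
  have hOm : Om = {Z | Gx Z < 1} ∩ (Prod.snd '' S)ᶜ := by
    ext Z
    constructor
    · rintro ⟨h1, h2⟩
      refine ⟨h1, ?_⟩
      rintro ⟨⟨s, Z'⟩, hq, rfl⟩
      obtain ⟨q1, q2, q3, q4⟩ := hq
      have := h2 s s.2 ⟨q1, q2⟩ q3
      have : PhiQ (aa s) (ap s) (hh s) (Rx Z') (Ux Z') (Vx Z') ≤ 0 := q4
      linarith
    · rintro ⟨h1, h2⟩
      refine ⟨h1, fun s hs C h => ?_⟩
      by_contra hcon
      apply h2
      exact ⟨(⟨s, hs⟩, Z), ⟨C.c1, C.c2, h, not_lt.mp hcon⟩, rfl⟩
  rw [hOm]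
  apply IsOpen.inter _ himg.isOpen_compl
  exact isOpen_lt cont_Gx continuous_const

theorem closure_Om_subset : closure Om ⊆ Kc := by
  intro Z hZ
  have hG : Gx Z ≤ 1 := by
    have : closure Om ⊆ {Z | Gx Z ≤ 1} :=
      closure_minimal (fun Z hZ => hZ.1.le) (isClosed_le cont_Gx continuous_const)
    exact this hZ
  refine ⟨hG, fun s hs C h => ?_⟩
  have P := par_of hs
  have hR0 := Rx_pos_of h
  have hiff := Phi_nonneg_iff P C (Rx_sq Z) hR0
  by_cases hb : 15 * Ux Z + 8 * Vx Z = 0 ∨ 12 * Ux Z + 5 * Vx Z = 0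
  · rw [hiff]
    have h1 := Hz_bdry hs C hb
    have h2 := Rx_le_of_disc (disc_of_G hG)
    have h3 : Ux Z = 5 * Z 0 - 4 := rfl
    change Hz s Z ≤ 1
    linarith
  push Not at hb
  rcases eq_or_lt_of_le h with heq | hlt
  · rw [hiff]
    exact (Hz_lt_of_lt hs C heq.symm.le).le
  by_contra hneg
  rw [not_le] at hneg
  have c1 : 0 < 15 * Ux Z + 8 * Vx Z := lt_of_le_of_ne C.c1 (Ne.symm hb.1)
  have c2 : 12 * Ux Z + 5 * Vx Z < 0 := lt_of_le_of_ne C.c2 hb.2
  have h4 := cont_Rx
  have h5 := cont_Ux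
  have h6 := cont_Vx
  have h7 : Continuous (fun q : Plane => q 0) := by fun_prop
  have hO : IsOpen {Y : Plane | 0 < 15 * Ux Y + 8 * Vx Y ∧ 12 * Ux Y + 5 * Vx Y < 0 ∧
      3 * Y 0 < Rx Y ∧ PhiQ (aa s) (ap s) (hh s) (Rx Y) (Ux Y) (Vx Y) < 0} := by
    apply IsOpen.inter (isOpen_lt continuous_const
      ((continuous_const.mul h5).add (continuous_const.mul h6)))
    apply IsOpen.inter (isOpen_lt
      ((continuous_const.mul h5).add (continuous_const.mul h6)) continuous_const)
    apply IsOpen.inter (isOpen_lt (continuous_const.mul h7) h4)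
    exact isOpen_lt (cont_Phi_gen continuous_const continuous_const continuous_const h4 h5 h6)
      continuous_const
  obtain ⟨Y, hY, hYO⟩ := mem_closure_iff.mp hZ _ hO ⟨c1, c2, hlt, hneg⟩
  have := hYO.2 s hs ⟨hY.1.le, hY.2.1.le⟩ hY.2.2.1.le
  linarith [hY.2.2.2]

noncomputable def Fp : Plane := pt (4 / 5) 0

theorem Fp_mem : Fp ∈ Om := by
  rw [mem_Om_iff]
  have hR : Rx Fp = 0 := by
    unfold Rx Ux Vx Fp; norm_num
  refine ⟨?_, fun s _ _ => by rw [Hz_of_Rx_zero hR]; norm_num⟩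
  unfold Gx Fp; norm_num

theorem Kc_subset_closure : Kc ⊆ closure Om := by
  intro Z hZ
  by_cases h : Z = Fp
  · rw [h]; exact subset_closure Fp_mem
  · -- points lineMap Z Fp t, t → 0
    have hmem : ∀ t : ℝ, 0 < t → t < 1 → AffineMap.lineMap Z Fp t ∈ Om := fun t h0 h1 =>
      strict_conv hZ (Om_subset_Kc Fp_mem) h h0 h1
    have hc : Continuous (fun t : ℝ => (AffineMap.lineMap Z Fp t : Plane)) :=
      AffineMap.lineMap_continuous
    have h0 : (0 : ℝ) ∈ closure (Ioo (0 : ℝ) 1) := by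
      rw [closure_Ioo (by norm_num)]; norm_num
    have h1 : (fun t : ℝ => (AffineMap.lineMap Z Fp t : Plane)) 0 = Z := by simp
    rw [← h1]
    apply map_mem_closure hc h0
    intro t ht
    exact hmem t ht.1 ht.2

theorem closure_Om : closure Om = Kc := Subset.antisymm closure_Om_subset Kc_subset_closure

theorem mem_frontier {Z : Plane} (h1 : Z ∈ Kc) (h2 : Z ∉ Om) : Z ∈ frontier Om := by
  refine ⟨by rw [closure_Om]; exact h1, ?_⟩
  rwa [isOpen_Om.interior_eq]

theorem convex_Om : Convex ℝ Om := by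
  rw [convex_iff_segment_subset]
  intro a ha b hb
  rw [segment_eq_image_lineMap]
  rintro _ ⟨t, ⟨h0, h1⟩, rfl⟩
  by_cases hab : a = b
  · subst hab; simpa using ha
  rcases eq_or_lt_of_le h0 with h | h
  · rw [← h]; simpa using ha
  rcases eq_or_lt_of_le h1 with h' | h'
  · rw [h']; simpa using hb
  exact strict_conv (Om_subset_Kc ha) (Om_subset_Kc hb) hab h h'

theorem hilbert_Om : IsHilbertPlane Om := by
  refine ⟨⟨Fp, Fp_mem⟩, isOpen_Om, ?_, convex_Om, ?_⟩
  · rw [isBounded_iff_forall_norm_le]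
    refine ⟨1, fun Z hZ => ?_⟩
    have := disc_of_G_lt hZ.1
    rw [EuclideanSpace.norm_eq]
    apply Real.sqrt_le_iff.mpr
    refine ⟨by norm_num, ?_⟩
    simp only [Fin.sum_univ_two, Real.norm_eq_abs, sq_abs]
    linarith
  · intro a ha b hb hab s t hs ht hst
    rw [closure_Om] at ha hb
    have h1 := strict_conv ha hb hab ht (by linarith)
    have h2 : (AffineMap.lineMap a b t : Plane) = s • a + t • b := by
      rw [lineMap_eq]
      have : s = 1 - t := by linarith
      rw [this]; module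
    rw [h2] at h1
    exact interior_maximal subset_closure isOpen_Om h1

end Pool.Agent.Lib.MP_3498ef_gt
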