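import Pool.Agent.Lib.MP_3498ef_gt.OnQ

set_option autoImplicit false

open Set

namespace Pool.Agent.Lib.MP_3498ef_gt

/-- convexity of `Rx` -/
theorem Rx_lm (a b : Plane) {t : ℝ} (h0 : 0 ≤ t) (h1 : t ≤ 1) :
    Rx (AffineMap.lineMap a b t) ≤ (1 - t) * Rx a + t * Rx b := by
  have ha := Rx_sq a
  have hb := Rx_sq b
  have ha0 := Rx_nonneg a
  have hb0 := Rx_nonneg b
  have hab : Ux a * Ux b + Vx a * Vx b ≤ Rx a * Rx b := by
    have h : (Ux a * Ux b + Vx a * Vx b) ^ 2 ≤ (Rx a * Rx b) ^ 2 := by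
      have e : (Rx a * Rx b) ^ 2 - (Ux a * Ux b + Vx a * Vx b) ^ 2
          = (Ux a * Vx b - Vx a * Ux b) ^ 2 := by
        rw [mul_pow, ha, hb]; ring
      nlinarith [sq_nonneg (Ux a * Vx b - Vx a * Ux b)]
    have := abs_le_of_sq_le_sq h (by positivity)
    exact (abs_le.mp this).2
  have hc := Rx_sq (AffineMap.lineMap a b t : Plane)
  rw [Ux_lm, Vx_lm] at hc
  have h1t : 0 ≤ 1 - t := by linarith
  have hsum : 0 ≤ (1 - t) * Rx a + t * Rx b := by positivity
  have h2 : Rx (AffineMap.lineMap a b t : Plane) ^ 2 ≤ ((1 - t) * Rx a + t * Rx b) ^ 2 := by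
    rw [hc]
    have e : ((1 - t) * Rx a + t * Rx b) ^ 2
        = (1 - t) ^ 2 * Rx a ^ 2 + t ^ 2 * Rx b ^ 2 + 2 * ((1 - t) * t) * (Rx a * Rx b) := by
      ring
    rw [e, ha, hb]
    have h3 := mul_le_mul_of_nonneg_left hab (show 0 ≤ 2 * ((1 - t) * t) by positivity)
    nlinarith
  exact (pow_le_pow_iff_left₀ (Rx_nonneg _) hsum (by norm_num)).mp h2

theorem Rx_Fp : Rx Fp = 0 := by
  unfold Rx Ux Vx Fp; norm_num

theorem Fp_0 : Fp 0 = 4 / 5 := by unfold Fp; rw [pt0]

theorem Om_lm {a b : Plane} (ha : a ∈ Om) (hb : b ∈ Om) {t : ℝ} (h0 : 0 ≤ t) (h1 : t < 1) :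
    AffineMap.lineMap a b t ∈ Om := by
  have := lineMap_mem_interior convex_Om (a := a) (J := b)
    (by rwa [isOpen_Om.interior_eq]) (subset_closure hb) h0 h1
  rwa [isOpen_Om.interior_eq] at this

/-- a zero of `R - 3x` on a segment -/
theorem exists_cross {a b : Plane} (ha : Rx a - 3 * a 0 < 0) (hb : 0 < Rx b - 3 * b 0) :
    ∃ t : ℝ, 0 < t ∧ t < 1 ∧
      Rx (AffineMap.lineMap a b t) = 3 * (AffineMap.lineMap a b t : Plane) 0 := by
  let f : ℝ → ℝ := fun t =>
    Rx (AffineMap.lineMap a b t) - 3 * (AffineMap.lineMap a b t : Plane) 0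
  have hl : Continuous (fun t : ℝ => (AffineMap.lineMap a b t : Plane)) :=
    AffineMap.lineMap_continuous
  have hf : Continuous f := by
    apply Continuous.sub (cont_Rx.comp hl)
    have : Continuous (fun Z : Plane => 3 * Z 0) := by fun_prop
    exact this.comp hl
  have h0 : f 0 < 0 := by simpa [f] using ha
  have h1 : 0 < f 1 := by simpa [f] using hb
  obtain ⟨t, ht, hft⟩ := intermediate_value_Ioo (by norm_num : (0 : ℝ) ≤ 1) hf.continuousOn
    ⟨h0, h1⟩
  refine ⟨t, ht.1, ht.2, ?_⟩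
  simp only [f] at hft
  linarith

theorem para_iff {X : Plane} (hX : X ∈ Om) :
    distTo Om X Ld = hilbertDist Om Fp X ↔ Rx X = 3 * X 0 := by
  have hΩ := hilbert_Om
  constructor
  · intro heq
    by_contra hne
    rcases lt_or_gt_of_ne hne with hlt | hgt
    · -- inside
      obtain ⟨Y, φ, ψ, hf⟩ := foot_exists hX hlt.le
      have hd := hf.distTo_eq
      by_cases hXF : X = Fp
      · subst hXF
        rw [hilbertDist_self hΩ Fp_mem, hd] at heq
        have hne : Fp ≠ Y := by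
          intro h
          have h1 := hf.memY.2
          rw [← h, Fp_0] at h1
          norm_num at h1
        have := hilbertDist_pos hΩ Fp_mem hf.memY.1 hne
        linarith
      · have hYR : 0 < Rx Y - 3 * Y 0 := by
          rw [hf.memY.2]
          have h1 := Rx_sq Y
          have h2 : Ux Y = -4 := by unfold Ux; rw [hf.memY.2]; norm_num
          rw [h2] at h1
          have h3 := Rx_nonneg Y
          have : 0 < Rx Y := by
            rcases eq_or_lt_of_le h3 with h | h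
            · exfalso; rw [← h] at h1; nlinarith [sq_nonneg (Vx Y)]
            · exact h
          linarith
        obtain ⟨t, ht0, ht1, hcr⟩ := exists_cross (a := X) (b := Y) (by linarith) hYR
        set X' : Plane := AffineMap.lineMap X Y t with hX'
        have hX'Om : X' ∈ Om := Om_lm hX hf.memY.1 ht0.le ht1
        have hXY : X ≠ Y := by
          intro h
          rw [h] at hlt
          linarith
        have hadd := hilbertDist_add hΩ hX hf.memY.1 hXY ht0 ht1
        rw [← hX'] at hadd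
        obtain ⟨Y', hY', hdY', hFX'⟩ := on_Q hX'Om hcr
        have h1 : hilbertDist Om Fp X' ≤ hilbertDist Om X' Y := by
          rw [hFX', ← hdY']
          exact distTo_le hΩ Ld_subset hX'Om hf.memY
        have hseg : X' ∉ segment ℝ Fp X := by
          rw [segment_eq_image_lineMap]
          rintro ⟨r, ⟨hr0, hr1⟩, hr⟩
          have h2 := Rx_lm Fp X hr0 hr1
          rw [hr, hcr, Rx_Fp] at h2
          have h3 := lm0 Fp X r
          rw [hr, Fp_0] at h3
          rcases eq_or_lt_of_le hr0 with h4 | h4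
          · rw [← h4] at h2 h3
            linarith
          · have h5 := mul_lt_mul_of_pos_left hlt h4
            linarith
        have h2 := hilbertDist_triangle_lt hΩ Fp_mem hX'Om hX hseg
        rw [hilbertDist_comm hΩ hX'Om hX] at h2
        linarith
    · -- outside
      have hFneg : Rx Fp - 3 * Fp 0 < 0 := by rw [Rx_Fp, Fp_0]; norm_num
      obtain ⟨t, ht0, ht1, hcr⟩ := exists_cross (a := Fp) (b := X) hFneg (by linarith)
      set X' : Plane := AffineMap.lineMap Fp X t with hX'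
      have hX'Om : X' ∈ Om := Om_lm Fp_mem hX ht0.le ht1
      have hFX : Fp ≠ X := by
        intro h
        rw [← h] at hgt
        linarith
      have hadd := hilbertDist_add hΩ Fp_mem hX hFX ht0 ht1
      rw [← hX'] at hadd
      obtain ⟨Y', hY', hdY', hFX'⟩ := on_Q hX'Om hcr
      have hseg : X' ∉ segment ℝ X Y' := by
        rw [segment_eq_image_lineMap]
        rintro ⟨r, ⟨hr0, hr1⟩, hr⟩
        have h3 := lm0 X Y' r
        rw [hr, hY'.2] at h3
        have h4 := lm0 Fp X t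
        rw [← hX', Fp_0] at h4
        have h5 := Q_x_lt hX'Om hcr
        have h6 := Q_x_ge hcr
        have h7 : X 0 < X' 0 := by nlinarith
        have h8 : X' 0 ≤ X 0 := by nlinarith
        linarith
      have h2 := hilbertDist_triangle_lt hΩ hX hX'Om hY'.1 hseg
      have h3 := distTo_le hΩ Ld_subset hX hY'
      rw [hilbertDist_comm hΩ hX hX'Om] at h2
      linarith
  · intro hQ
    obtain ⟨Y, _, h1, h2⟩ := on_Q hX hQ
    rw [h1, h2]

theorem Ld_geodesic : IsGeodesicLine Om Ld := by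
  refine ⟨(Submodule.span ℝ {pt 0 1}).toAffineSubspace, ?_, ?_, ?_⟩
  · rw [Submodule.toAffineSubspace_direction]
    apply finrank_span_singleton
    intro h
    have : pt 0 1 1 = (0 : Plane) 1 := by rw [h]
    rw [pt1] at this
    simp at this
  · ext Z
    simp only [Ld, mem_inter_iff, SetLike.mem_coe, Submodule.mem_toAffineSubspace,
      Submodule.mem_span_singleton]
    constructor
    · rintro ⟨h1, h2⟩
      refine ⟨⟨Z 1, ?_⟩, h1⟩
      apply pt_ext
      · simp [h2]
      · simp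
    · rintro ⟨⟨r, hr⟩, h2⟩
      refine ⟨h2, ?_⟩
      rw [← hr]; simp
  · obtain ⟨Y, φ, ψ, hf⟩ := foot_exists Fp_mem (by rw [Rx_Fp, Fp_0]; norm_num)
    exact ⟨Y, hf.memY⟩

theorem dist_Fp_pos : 0 < distTo Om Fp Ld := by
  obtain ⟨Y, φ, ψ, hf⟩ := foot_exists Fp_mem (by rw [Rx_Fp, Fp_0]; norm_num)
  rw [hf.distTo_eq]
  apply hilbertDist_pos hilbert_Om Fp_mem hf.memY.1
  intro h
  have h1 := hf.memY.2
  rw [← h, Fp_0] at h1
  norm_num at h1

/-- the parabolic conic -/
theorem conic_eq : conic Om (distTo Om Fp Ld) Fp Ld =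
    {X ∈ Om | 16 * X 0 ^ 2 + 9 * X 1 ^ 2 - 40 * X 0 + 16 = 0} := by
  ext X
  simp only [conic, mem_ofPred_eq]
  constructor
  · rintro ⟨h1, h2⟩
    refine ⟨h1, ?_⟩
    have h3 := mul_left_cancel₀ dist_Fp_pos.ne' h2
    exact Q_eq ((para_iff h1).mp h3)
  · rintro ⟨h1, h2⟩
    refine ⟨h1, ?_⟩
    have hx : 0 ≤ X 0 := by nlinarith [sq_nonneg (X 0), sq_nonneg (X 1)]
    have hQ : Rx X = 3 * X 0 := by
      have h3 := Rx_sq X
      have h4 : Rx X ^ 2 = (3 * X 0) ^ 2 := by
        rw [h3]; unfold Ux Vx; linear_combination h2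
      exact (pow_left_inj₀ (Rx_nonneg X) (by linarith) (by norm_num)).mp h4
    rw [(para_iff h1).mpr hQ]

/-- an affine equivalence carrying the unit circle to the ellipse -/
noncomputable def Tlin : Plane ≃ₗ[ℝ] Plane where
  toFun Z := pt (3 / 4 * Z 0) (Z 1)
  invFun Z := pt (4 / 3 * Z 0) (Z 1)
  map_add' a b := by
    apply pt_ext
    · simp; ring
    · simp
  map_smul' r a := by
    apply pt_ext
    · simp; ring
    · simp
  left_inv Z := by
    apply pt_ext
    · simp; ring
    · simp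
  right_inv Z := by
    apply pt_ext
    · simp; ring
    · simp

noncomputable def Taff : Plane ≃ᵃ[ℝ] Plane :=
  Tlin.toAffineEquiv.trans (AffineEquiv.constVAdd ℝ Plane (pt (5 / 4) 0))

theorem Taff0 (Z : Plane) : Taff Z 0 = 5 / 4 + 3 / 4 * Z 0 := by
  simp [Taff, Tlin]
theorem Taff1 (Z : Plane) : Taff Z 1 = Z 1 := by
  simp [Taff, Tlin]

theorem mem_sphere_iff (Z : Plane) : Z ∈ Metric.sphere (0 : Plane) 1 ↔ Z 0 ^ 2 + Z 1 ^ 2 = 1 := by
  rw [mem_sphere_zero_iff_norm, EuclideanSpace.norm_eq]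
  simp only [Fin.sum_univ_two, Real.norm_eq_abs, sq_abs]
  rw [Real.sqrt_eq_one]

theorem ellipse_eq : {X : Plane | 16 * X 0 ^ 2 + 9 * X 1 ^ 2 - 40 * X 0 + 16 = 0}
    = Taff '' Metric.sphere 0 1 := by
  ext X
  constructor
  · intro h
    refine ⟨Taff.symm X, ?_, by simp⟩
    rw [mem_sphere_iff]
    have h0 := Taff0 (Taff.symm X)
    have h1 := Taff1 (Taff.symm X)
    rw [AffineEquiv.apply_symm_apply] at h0 h1
    rw [← h1]
    have : (Taff.symm X) 0 = (X 0 - 5 / 4) * (4 / 3) := by rw [h0]; ring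
    rw [this]
    have h' : 16 * X 0 ^ 2 + 9 * X 1 ^ 2 - 40 * X 0 + 16 = 0 := h
    linear_combination (1 / 9) * h'
  · rintro ⟨Z, hZ, rfl⟩
    rw [mem_sphere_iff] at hZ
    show 16 * (Taff Z) 0 ^ 2 + 9 * (Taff Z) 1 ^ 2 - 40 * (Taff Z) 0 + 16 = 0
    rw [Taff0, Taff1]
    linear_combination 9 * hZ

/-- points of the circle away from the modified arcs -/
theorem circle_pt {x y : ℝ} (h : x ^ 2 + y ^ 2 = 1) (hy : y ≤ 0) : pt x y ∈ frontier Om := by
  apply circle_frontier
  · rw [pt0, pt1]; exact h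
  · rw [pt0, pt1]; exact ell_of_height h (Or.inl (by linarith))
  · intro s hs C
    rcases eq_or_lt_of_le hy with h0 | h0
    · -- y = 0
      exfalso
      have h1 := C.c1
      have h2 := C.c2
      unfold Ux Vx at h1 h2
      rw [pt0, pt1, h0] at h1 h2
      have : x = 4 / 5 := by linarith
      rw [this, h0] at h
      norm_num at h
    · exfalso
      have h1 := C.V_nonneg
      unfold Vx at h1
      rw [pt1] at h1
      linarith

theorem not_model : ¬ IsHyperbolicModel Om := by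
  rintro ⟨T, hT⟩
  -- the inverse map sends the frontier to the unit sphere
  have hfr : ∀ Z ∈ frontier Om, T.symm Z ∈ Metric.sphere (0 : Plane) 1 := by
    intro Z hZ
    have hh : frontier Om = T '' frontier (Metric.ball (0 : Plane) 1) := by
      rw [hT]
      have := (T.toHomeomorphOfFiniteDimensional).image_frontier (Metric.ball (0 : Plane) 1)
      simpa using this.symm
    rw [hh, frontier_ball (0 : Plane) (by norm_num)] at hZ
    obtain ⟨W, hW, rfl⟩ := hZ
    simpa using hW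
  -- coordinates of the inverse
  obtain ⟨a1, b1, c1, a2, b2, c2, h1, h2⟩ : ∃ a1 b1 c1 a2 b2 c2 : ℝ,
      (∀ Z : Plane, (T.symm Z) 0 = a1 * Z 0 + b1 * Z 1 + c1) ∧
      (∀ Z : Plane, (T.symm Z) 1 = a2 * Z 0 + b2 * Z 1 + c2) := by
    have hZ : ∀ Z : Plane, T.symm Z = T.symm.linear Z + T.symm 0 := by
      intro Z
      have := T.symm.map_vadd (0 : Plane) Z
      simpa using this
    have hdec : ∀ Z : Plane, Z = Z 0 • pt 1 0 + Z 1 • pt 0 1 := by
      intro Z
      apply pt_ext
      · simp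
      · simp
    have hlin : ∀ Z : Plane, T.symm.linear Z
        = Z 0 • T.symm.linear (pt 1 0) + Z 1 • T.symm.linear (pt 0 1) := by
      intro Z
      conv_lhs => rw [hdec Z]
      rw [map_add, map_smul, map_smul]
    refine ⟨(T.symm.linear (pt 1 0)) 0, (T.symm.linear (pt 0 1)) 0, (T.symm 0) 0,
      (T.symm.linear (pt 1 0)) 1, (T.symm.linear (pt 0 1)) 1, (T.symm 0) 1, ?_, ?_⟩
    · intro Z
      rw [hZ Z, hlin Z]
      simp; ring
    · intro Z
      rw [hZ Z, hlin Z]
      simp; ring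
  have key : ∀ x y : ℝ, pt x y ∈ frontier Om →
      (a1 * x + b1 * y + c1) ^ 2 + (a2 * x + b2 * y + c2) ^ 2 = 1 := by
    intro x y hxy
    have := hfr _ hxy
    rw [mem_sphere_iff, h1, h2, pt0, pt1] at this
    exact this
  have e1 := key 1 0 (circle_pt (by norm_num) (by norm_num))
  have e2 := key (-1) 0 (circle_pt (by norm_num) (by norm_num))
  have e3 := key 0 (-1) (circle_pt (by norm_num) (by norm_num))
  have e4 := key (3 / 5) (-4 / 5) (circle_pt (by norm_num) (by norm_num))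
  have e5 := key (-3 / 5) (-4 / 5) (circle_pt (by norm_num) (by norm_num))
  -- hence the quadratic vanishes on the whole circle, in particular at a cut-off point
  have e6 : (a1 * (153 / 185) + b1 * (104 / 185) + c1) ^ 2
      + (a2 * (153 / 185) + b2 * (104 / 185) + c2) ^ 2 = 1 := by
    have d1 : a1 * c1 + a2 * c2 = 0 := by linear_combination (1 / 4) * e1 - (1 / 4) * e2
    have d2 : a1 ^ 2 + a2 ^ 2 + c1 ^ 2 + c2 ^ 2 = 1 := by
      linear_combination (1 / 2) * e1 + (1 / 2) * e2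
    have d3 : b1 ^ 2 + b2 ^ 2 - 2 * (b1 * c1 + b2 * c2) + c1 ^ 2 + c2 ^ 2 = 1 := by
      linear_combination e3
    have d4 : a1 * b1 + a2 * b2 = 0 := by
      linear_combination (-25 / 48) * e4 + (25 / 48) * e5 + (25 / 48) * (12 / 5) * d1
    have d5 : 9 * (a1 ^ 2 + a2 ^ 2) + 16 * (b1 ^ 2 + b2 ^ 2) - 40 * (b1 * c1 + b2 * c2)
        + 25 * (c1 ^ 2 + c2 ^ 2) = 25 := by
      linear_combination (25 / 2) * e4 + (25 / 2) * e5
    have d6 : b1 * c1 + b2 * c2 = 0 := by
      linear_combination (-1 / 8) * d5 + (9 / 8) * d2 + 2 * d3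
    have d7 : b1 ^ 2 + b2 ^ 2 + c1 ^ 2 + c2 ^ 2 = 1 := by linear_combination d3 + 2 * d6
    linear_combination (153 / 185) ^ 2 * d2 + (104 / 185) ^ 2 * d7
      + 2 * (153 / 185) * (104 / 185) * d4 + 2 * (153 / 185) * d1 + 2 * (104 / 185) * d6
  -- so this point would be in the closure
  have hmem : pt (153 / 185) (104 / 185) ∈ closure Om := by
    have hh : T '' closure (Metric.ball (0 : Plane) 1) = closure Om := by
      rw [hT]
      have := (T.toHomeomorphOfFiniteDimensional).image_closure (Metric.ball (0 : Plane) 1)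
      simpa using this
    rw [← hh, closure_ball (0 : Plane) (by norm_num)]
    refine ⟨T.symm (pt (153 / 185) (104 / 185)), ?_, by simp⟩
    apply Metric.sphere_subset_closedBall
    rw [mem_sphere_iff, h1, h2, pt0, pt1]
    exact e6
  have hG := (closure_Om_subset hmem).1
  unfold Gx at hG
  rw [pt0, pt1] at hG
  rw [max_eq_left (by norm_num)] at hG
  norm_num at hG

theorem vertex_mem : pt (1 / 2) 0 ∈ Om := by
  rw [mem_Om_iff]
  refine ⟨?_, fun s _ C => ?_⟩
  · unfold Gx; norm_num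
  · exfalso
    have h1 := C.c1
    unfold Ux Vx at h1
    rw [pt0, pt1] at h1
    norm_num at h1

/-- the conic is not degenerate: it has infinitely many points -/
theorem conic_infinite : (conic Om (distTo Om Fp Ld) Fp Ld).Infinite := by
  rw [conic_eq]
  let g : ℝ → Plane := fun θ => pt (5 / 4 - 3 / 4 * Real.cos θ) (Real.sin θ)
  have hg : Continuous g := by
    have : g = fun θ => !₂[5 / 4 - 3 / 4 * Real.cos θ, Real.sin θ] := rfl
    rw [this]
    fun_prop
  have h0 : g 0 ∈ Om := by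
    have : g 0 = pt (1 / 2) 0 := by
      apply pt_ext
      · simp [g]; norm_num
      · simp [g]
    rw [this]; exact vertex_mem
  have hopen : g ⁻¹' Om ∈ nhds (0 : ℝ) := (isOpen_Om.preimage hg).mem_nhds h0
  have hint : Ioo (-(Real.pi / 2)) (Real.pi / 2) ∈ nhds (0 : ℝ) :=
    Ioo_mem_nhds (by linarith [Real.pi_pos]) (by linarith [Real.pi_pos])
  have hinf : (g ⁻¹' Om ∩ Ioo (-(Real.pi / 2)) (Real.pi / 2)).Infinite :=
    infinite_of_mem_nhds 0 (Filter.inter_mem hopen hint)
  have hinj : InjOn g (g ⁻¹' Om ∩ Ioo (-(Real.pi / 2)) (Real.pi / 2)) := by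
    rintro a ⟨_, ha⟩ b ⟨_, hb⟩ hab
    have h1 : (g a) 1 = (g b) 1 := by rw [hab]
    simp only [g, pt1] at h1
    exact Real.injOn_sin (Ioo_subset_Icc_self ha) (Ioo_subset_Icc_self hb) h1
  refine (hinf.image hinj).mono ?_
  rintro _ ⟨θ, ⟨h1, _⟩, rfl⟩
  refine ⟨h1, ?_⟩
  simp only [g, pt0, pt1]
  linear_combination 9 * (Real.sin_sq_add_cos_sq θ)

theorem main : ∃ Ω C : Set Plane, IsHilbertPlane Ω ∧ IsParabolicConic Ω C ∧ IsQuadric Ω C ∧
    C.Infinite ∧ (∃ Q : Set Plane, IsEllipse Q ∧ C = Ω ∩ Q) ∧ ¬ IsHyperbolicModel Ω := by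
  refine ⟨Om, conic Om (distTo Om Fp Ld) Fp Ld, hilbert_Om, ?_, ?_, conic_infinite, ?_,
    not_model⟩
  · refine ⟨Ld, Fp, distTo Om Fp Ld, Ld_geodesic, Fp_mem, ?_, dist_Fp_pos, rfl, rfl⟩
    intro h
    have := h.2
    rw [Fp_0] at this
    norm_num at this
  · refine ⟨16, 0, 9, -40, 0, 16, Or.inl (by norm_num), ?_⟩
    rw [conic_eq]
    ext X
    simp only [mem_ofPred_eq]
    constructor
    · rintro ⟨h1, h2⟩
      exact ⟨h1, by linarith⟩
    · rintro ⟨h1, h2⟩
      exact ⟨h1, by linarith⟩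
  · refine ⟨_, ⟨Taff, rfl⟩, ?_⟩
    rw [conic_eq, ← ellipse_eq]
    rfl

end Pool.Agent.Lib.MP_3498ef_gt
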