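import Pool.Agent.Lib.MP_3498ef_gt.Domain2

set_option autoImplicit false

open Set

namespace Pool.Agent.Lib.MP_3498ef_gt

/-- the leading line -/
def Ld : Set Plane := {Z ∈ Om | Z 0 = 0}

theorem Ld_subset : Ld ⊆ Om := fun _ hZ => hZ.1

noncomputable def lin (a h : ℝ) (Z : Plane) : ℝ := 1 + a * Z 0 - h * Z 1

theorem isAff_lin (a h : ℝ) : IsAff (lin a h) := by
  constructor
  · unfold lin; fun_prop
  · intro x y t
    unfold lin
    rw [lm0, lm1]; ring

structure Foot (X Y : Plane) (φ ψ : Plane → ℝ) : Prop where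
  hφ : IsAff φ
  hψ : IsAff ψ
  φpos : ∀ z ∈ Om, 0 < φ z
  ψpos : ∀ z ∈ Om, 0 < ψ z
  eqL : ∀ z : Plane, z 0 = 0 → φ z = ψ z
  memX : X ∈ Om
  memY : Y ∈ Ld
  rayW : ∃ W s, Ray Om Y X W s ∧ φ W = 0
  rayW' : ∃ W s, Ray Om X Y W s ∧ ψ W = 0

theorem Foot.E_eq {X Y : Plane} {φ ψ : Plane → ℝ} (h : Foot X Y φ ψ) :
    E Om X Y * E Om Y X = ψ X / φ X := by
  obtain ⟨W, s, hW, hφW⟩ := h.rayW
  obtain ⟨W', s', hW', hψW'⟩ := h.rayW'
  have e1 := E_support isOpen_Om convex_Om h.hφ h.memY.1 hW hφW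
  have e2 := E_support isOpen_Om convex_Om h.hψ h.memX hW' hψW'
  have e3 := h.eqL Y h.memY.2
  have p1 := h.φpos X h.memX
  have p2 := h.ψpos Y h.memY.1
  rw [eq_div_iff p1.ne']
  rw [e2, ← e3, e1]; ring

theorem pair_lower {X Y : Plane} {φ ψ : Plane → ℝ} (hφ : IsAff φ) (hψ : IsAff ψ)
    (φpos : ∀ z ∈ Om, 0 < φ z) (ψpos : ∀ z ∈ Om, 0 < ψ z)
    (eqL : ∀ z : Plane, z 0 = 0 → φ z = ψ z) (hX : X ∈ Om) (hY : Y ∈ Ld) :
    ψ X / φ X ≤ E Om X Y * E Om Y X := by
  have hΩ := hilbert_Om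
  have h1 := E_ge hΩ.isOpen hΩ.convex hΩ.isBounded hψ (fun z hz => (ψpos z hz).le) hX hY.1
  have h2 := E_ge hΩ.isOpen hΩ.convex hΩ.isBounded hφ (fun z hz => (φpos z hz).le) hY.1 hX
  have p1 := φpos X hX
  have p2 := ψpos Y hY.1
  have q1 := one_le_E hΩ.isOpen hΩ.convex hΩ.isBounded hX hY.1
  have e3 := eqL Y hY.2
  rw [div_le_iff₀ p1]
  calc ψ X ≤ E Om X Y * ψ Y := h1
    _ = E Om X Y * φ Y := by rw [e3]
    _ ≤ E Om X Y * (E Om Y X * φ X) := by
        apply mul_le_mul_of_nonneg_left h2; linarith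
    _ = _ := by ring

theorem Foot.distTo_eq {X Y : Plane} {φ ψ : Plane → ℝ} (h : Foot X Y φ ψ) :
    distTo Om X Ld = hilbertDist Om X Y := by
  apply Pool.Agent.Lib.MP_3498ef_gt.distTo_eq hilbert_Om Ld_subset h.memX h.memY
  intro Y' hY'
  rw [h.E_eq]
  exact pair_lower h.hφ h.hψ h.φpos h.ψpos h.eqL h.memX hY'

/-- positivity of unit tangent functionals -/
theorem lin_pos {c y : ℝ} (h : c ^ 2 + y ^ 2 = 1) : ∀ z ∈ Om, 0 < lin c y z := by
  intro z hz
  have hd := disc_of_G_lt hz.1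
  unfold lin
  have h1 : (c * z 0 - y * z 1) ^ 2 ≤ z 0 ^ 2 + z 1 ^ 2 := by
    have e : z 0 ^ 2 + z 1 ^ 2 - (c * z 0 - y * z 1) ^ 2 = (y * z 0 + c * z 1) ^ 2 := by
      linear_combination (-(z 0 ^ 2 + z 1 ^ 2)) * h
    nlinarith [sq_nonneg (y * z 0 + c * z 1)]
  have h2 : (c * z 0 - y * z 1) ^ 2 < 1 := by linarith
  have h3 := abs_lt_of_sq_lt_sq (a := c * z 0 - y * z 1) (b := 1) (by simpa using h2) (by norm_num)
  rw [abs_lt] at h3
  linarith [h3.1]

theorem lin_s_pos {s : ℝ} (hs : s ∈ I0) : ∀ z ∈ Om, 0 < lin (-aa s) (hh s) z := by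
  intro z hz
  have := support_lt (x := z 0) (y := z 1) hs hz.1
  unfold lin; linarith

theorem circle_frontier {Z : Plane} (h : Z 0 ^ 2 + Z 1 ^ 2 = 1)
    (hell : 27 * Z 0 + 19 * Z 1 - 33 ≤ 0)
    (hH : ∀ s ∈ I0, Cone (Ux Z) (Vx Z) → Hz s Z ≤ 1) : Z ∈ frontier Om := by
  have hG : Gx Z = 1 := by
    unfold Gx
    rw [max_eq_right hell]; linarith
  apply mem_frontier
  · rw [mem_Kc_iff]; exact ⟨hG.le, hH⟩
  · intro hZ
    have := hZ.1
    rw [hG] at this
    exact lt_irrefl _ this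

theorem ell_of_height {c y : ℝ} (h : c ^ 2 + y ^ 2 = 1)
    (hy : y ≤ 60 / 109 ∨ 3 / 5 ≤ y) : 27 * c + 19 * y - 33 ≤ 0 := by
  have hy1 : y ≤ 1 := by nlinarith [sq_nonneg c]
  have h1 : 0 ≤ (109 * y - 60) * (10 * y - 6) := by
    rcases hy with h | h
    · apply mul_nonneg_of_nonpos_of_nonpos <;> linarith
    · apply mul_nonneg <;> linarith
  have h2 : (27 * c) ^ 2 ≤ (33 - 19 * y) ^ 2 := by
    have e : (33 - 19 * y) ^ 2 - (27 * c) ^ 2 = (109 * y - 60) * (10 * y - 6) := by
      linear_combination (-729) * h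
    linarith
  have := abs_le_of_sq_le_sq h2 (by linarith)
  linarith [le_abs_self (27 * c), (abs_le.mp this).2]

theorem ell_of_x {x y : ℝ} (h : x ^ 2 + y ^ 2 ≤ 1) (hx : x ≤ 4 / 5) :
    27 * x + 19 * y - 33 ≤ 0 := by
  have h1 : 0 ≤ (5 * x - 4) * (218 * x - 182) := by
    apply mul_nonneg_of_nonpos_of_nonpos <;> linarith
  have h2 : (19 * y) ^ 2 ≤ (33 - 27 * x) ^ 2 := by
    have e : (33 - 27 * x) ^ 2 - (19 * y) ^ 2
        = (5 * x - 4) * (218 * x - 182) + 361 * (1 - (x ^ 2 + y ^ 2)) := by ring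
    nlinarith
  have := abs_le_of_sq_le_sq h2 (by linarith)
  linarith [(abs_le.mp this).2]

theorem not_cone_left {c y : ℝ} (hc : 0 ≤ c) (hy : y ≤ 1) :
    ¬ Cone (Ux (pt (-c) y)) (Vx (pt (-c) y)) := by
  intro C
  have := C.c1
  unfold Ux Vx at this
  rw [pt0, pt1] at this
  linarith

/-- horizontal feet -/
theorem foot_horiz {X : Plane} (hX : X ∈ Om) (hR : Rx X ≤ 3 * X 0)
    (hy : X 1 ≤ 60 / 109 ∨ 3 / 5 ≤ X 1) {c : ℝ} (hc : 0 < c) (hcy : c ^ 2 + X 1 ^ 2 = 1) :
    Foot X (pt 0 (X 1)) (lin (-c) (X 1)) (lin c (X 1)) := by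
  have hd := disc_of_G_lt hX.1
  have hRn := Rx_nonneg X
  have hRs := Rx_sq X
  have hUd : Ux X = 5 * X 0 - 4 := rfl
  have hVd : Vx X = 3 * X 1 := rfl
  have hx0 : 0 ≤ X 0 := by linarith
  have hsq : (5 * X 0 - 4) ^ 2 + (3 * X 1) ^ 2 ≤ 9 * X 0 ^ 2 := by
    rw [← hUd, ← hVd, ← hRs]; nlinarith
  have hx : 0 < X 0 := by
    rcases eq_or_lt_of_le hx0 with h | h
    · exfalso; rw [← h] at hsq; nlinarith [sq_nonneg (X 1)]
    · exact h
  have hxc : X 0 < c := by nlinarith
  have hy1 : X 1 < 1 := by nlinarith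
  have hx1 : X 0 < 1 := by nlinarith [sq_nonneg (X 1)]
  have hc57 : 5 - 4 * X 0 ≤ 3 * c := by
    have : (5 - 4 * X 0) ^ 2 ≤ (3 * c) ^ 2 := by nlinarith
    have := abs_le_of_sq_le_sq this (by linarith)
    exact (abs_le.mp this).2
  have hW : pt c (X 1) ∈ frontier Om := by
    apply circle_frontier
    · rw [pt0, pt1]; exact hcy
    · rw [pt0, pt1]; exact ell_of_height hcy hy
    · intro s hs C
      apply (Hz_lt_of_lt hs C _).le
      rw [Rx_eq_of_circle (by rw [pt0, pt1]; exact hcy), pt0]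
      linarith
  have hW' : pt (-c) (X 1) ∈ frontier Om := by
    apply circle_frontier
    · rw [pt0, pt1]; linarith
    · rw [pt0, pt1]; linarith
    · intro s hs C
      exact absurd C (not_cone_left hc.le hy1.le)
  have hY : pt 0 (X 1) ∈ Ld := by
    refine ⟨?_, by simp⟩
    rw [mem_Om_iff]
    constructor
    · unfold Gx
      rw [pt0, pt1, max_eq_right (by linarith)]
      nlinarith
    · intro s hs C
      exfalso
      have := C.c1
      unfold Ux Vx at this
      rw [pt0, pt1] at this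
      linarith
  refine ⟨isAff_lin _ _, isAff_lin _ _, lin_pos (by linarith), lin_pos hcy, ?_, hX, hY, ?_, ?_⟩
  · intro z hz
    unfold lin; rw [hz]; ring
  · refine ⟨pt c (X 1), X 0 / c, ⟨hW, by positivity, by rw [div_lt_one hc]; exact hxc, ?_⟩, ?_⟩
    · apply pt_ext
      · rw [lm0, pt0, pt0]; field_simp; ring
      · rw [lm1, pt1, pt1]; ring
    · unfold lin; rw [pt0, pt1]; linarith
  · have hxc0 : 0 < X 0 + c := by linarith
    refine ⟨pt (-c) (X 1), X 0 / (X 0 + c), ⟨hW', by positivity,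
      by rw [div_lt_one hxc0]; linarith, ?_⟩, ?_⟩
    · apply pt_ext
      · rw [lm0, pt0, pt0]; field_simp; ring
      · rw [lm1, pt1, pt1]; ring
    · unfold lin; rw [pt0, pt1]; linarith

/-- feet in the modified range, by the intermediate value theorem -/
theorem foot_ivt {X : Plane} (hX : X ∈ Om) (hx : 0 < X 0)
    (hy1 : 60 / 109 ≤ X 1) (hy2 : X 1 ≤ 3 / 5) :
    ∃ s ∈ I0, ∃ Y, Foot X Y (lin (-aa s) (hh s)) (lin (ap s) (hh s)) := by
  -- the cross product function
  let f : ℝ → ℝ := fun s => (wx s + ap s) * (X 1 - hh s) - (wy s - hh s) * (X 0 + ap s)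
  have hf : ContinuousOn f (Icc (4 / 3) (27 / 19)) := by
    have h1 := cont_wx.continuousOn (s := I0)
    have h2 := cont_wy.continuousOn (s := I0)
    have h3 := contOn_hh
    have h4 := contOn_ap
    exact ((h1.add h4).mul (continuousOn_const.sub h3)).sub
      ((h2.sub h3).mul (continuousOn_const.add h4))
  have hf1 : f (4 / 3) ≤ 0 := by
    simp only [f]
    rw [wx_left, ap_left, hh_left, wy_left]
    linarith
  have hf2 : 0 ≤ f (27 / 19) := by
    simp only [f]
    rw [wx_right, ap_right, hh_right, wy_right]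
    linarith
  obtain ⟨s, hs, hfs⟩ := intermediate_value_Icc (by norm_num) hf ⟨hf1, hf2⟩
  change s ∈ I0 at hs
  refine ⟨s, hs, ?_⟩
  have hcross : (wx s + ap s) * (X 1 - hh s) = (wy s - hh s) * (X 0 + ap s) := by
    have : f s = 0 := hfs
    simp only [f] at this
    linarith
  have hap := ap_pos hs
  have hapsq := ap_sq hs
  have hwx := wx_ge hs
  have haa := aa_pos hs
  have hhl := hh_le hs
  have hhg := hh_ge hs
  have hφX := lin_s_pos hs X hX
  have hsw := support_w hs
  have hφz : 0 < 1 + aa s * ap s - hh s ^ 2 := by nlinarith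
  have hxa : 0 < X 0 + ap s := by linarith
  -- x < wx
  have hxw : X 0 < wx s := by
    have e : (wx s + ap s) * lin (-aa s) (hh s) X
        = (wx s - X 0) * (1 + aa s * ap s - hh s ^ 2) := by
      unfold lin
      have e1 : hh s * wy s = 1 - aa s * wx s := by linarith
      have e2 : (wx s + ap s) * (hh s * X 1)
          = hh s * ((wy s - hh s) * (X 0 + ap s)) + (wx s + ap s) * hh s ^ 2 := by
        rw [← hcross]; ring
      have e3 : hh s * ((wy s - hh s) * (X 0 + ap s))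
          = (hh s * wy s - hh s ^ 2) * (X 0 + ap s) := by ring
      rw [e3, e1] at e2
      linear_combination (-1) * e2
    have h1 : 0 < (wx s - X 0) * (1 + aa s * ap s - hh s ^ 2) := by
      rw [← e]; apply mul_pos (by linarith) hφX
    have := (mul_pos_iff_of_pos_right hφz).mp h1
    linarith
  have hw : pt (wx s) (wy s) ∈ frontier Om := by
    have hG := G_w s
    have hell := ell_w s
    have hel := el_nonneg hs
    apply mem_frontier
    · rw [mem_Kc_iff]
      constructor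
      · unfold Gx
        rw [pt0, pt1, hell, max_eq_left hel]
        linarith
      · intro s' hs' C
        exfalso
        have h2 := C.c2
        unfold Ux Vx at h2
        rw [pt0, pt1] at h2
        have hwx1 : wx s ≤ 1 := by nlinarith [sq_nonneg (wy s), sq_nonneg (el s)]
        have hwy : 0 < wy s := by linarith
        linarith
    · intro hZ
      have := hZ.1
      unfold Gx at this
      rw [pt0, pt1, hell, max_eq_left hel] at this
      linarith
  have hz : pt (-ap s) (hh s) ∈ frontier Om := by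
    apply circle_frontier
    · rw [pt0, pt1]; linarith
    · rw [pt0, pt1]; linarith
    · intro s' hs' C
      exact absurd C (not_cone_left hap.le (by linarith))
  set r := X 0 / (X 0 + ap s) with hr
  have hr0 : 0 < r := by positivity
  have hr1 : r < 1 := by rw [hr, div_lt_one hxa]; linarith
  have hrx : r * (X 0 + ap s) = X 0 := by rw [hr]; field_simp
  set Y : Plane := AffineMap.lineMap X (pt (-ap s) (hh s)) r with hYdef
  have hY0 : Y 0 = 0 := by
    rw [hYdef, lm0, pt0]; linarith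
  have hYm : Y ∈ Om := by
    have := lineMap_mem_interior convex_Om (a := X) (J := pt (-ap s) (hh s))
      (by rwa [isOpen_Om.interior_eq]) hz.1 hr0.le hr1
    rwa [isOpen_Om.interior_eq] at this
  refine ⟨Y, isAff_lin _ _, isAff_lin _ _, lin_s_pos hs, lin_pos hapsq, ?_, hX, ⟨hYm, hY0⟩,
    ?_, ?_⟩
  · intro z hz
    unfold lin; rw [hz]; ring
  · refine ⟨pt (wx s) (wy s), X 0 / wx s, ⟨hw, by positivity,
      by rw [div_lt_one (by linarith)]; exact hxw, ?_⟩, ?_⟩
    · have hwx0 : wx s ≠ 0 := by linarith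
      apply pt_ext
      · rw [lm0, pt0, hY0]; field_simp; ring
      · rw [lm1, pt1, hYdef, lm1, pt1]
        have hk : wx s * (X 0 + ap s) * ((1 - X 0 / wx s) * ((1 - r) * X 1 + r * hh s)
            + X 0 / wx s * wy s - X 1) = 0 := by
          have e1 : wx s * (1 - X 0 / wx s) = wx s - X 0 := by field_simp
          have e2 : wx s * (X 0 / wx s) = X 0 := by field_simp
          have e3 : (X 0 + ap s) * ((1 - r) * X 1 + r * hh s)
              = ap s * X 1 + X 0 * hh s := by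
            have : (X 0 + ap s) * ((1 - r) * X 1 + r * hh s)
              = (X 0 + ap s - r * (X 0 + ap s)) * X 1 + r * (X 0 + ap s) * hh s := by ring
            rw [this, hrx]; ring
          calc wx s * (X 0 + ap s) * ((1 - X 0 / wx s) * ((1 - r) * X 1 + r * hh s)
            + X 0 / wx s * wy s - X 1)
              = (wx s * (1 - X 0 / wx s)) * ((X 0 + ap s) * ((1 - r) * X 1 + r * hh s))
                + (wx s * (X 0 / wx s)) * ((X 0 + ap s) * wy s)
                - wx s * (X 0 + ap s) * X 1 := by ring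
            _ = (wx s - X 0) * (ap s * X 1 + X 0 * hh s) + X 0 * ((X 0 + ap s) * wy s)
                - wx s * (X 0 + ap s) * X 1 := by rw [e1, e2, e3]
            _ = 0 := by linear_combination (-X 0) * hcross
        rcases mul_eq_zero.mp hk with h | h
        · exfalso
          rcases mul_eq_zero.mp h with h | h
          · exact hwx0 h
          · exact hxa.ne' h
        · linarith
    · unfold lin; rw [pt0, pt1]; linarith
  · refine ⟨pt (-ap s) (hh s), r, ⟨hz, hr0, hr1, rfl⟩, ?_⟩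
    unfold lin; rw [pt0, pt1]; linarith

end Pool.Agent.Lib.MP_3498ef_gt
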