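import Pool.Agent.Lib.MP_3498ef_gt.Ineq

set_option autoImplicit false

namespace Pool.Agent.Lib.MP_3498ef_gt

/-- admissible parameters -/
structure Par (a p h : ℝ) : Prop where
  hp : p ^ 2 + h ^ 2 = 1
  h1 : 60 / 109 ≤ h
  h2 : h ≤ 3 / 5
  hp0 : 0 < p
  ha : p ≤ a
  k1 : 4 * a + 3 * h ≤ 5
  k2 : 91 * a + 60 * h ≤ 109

/-- the cone in which the boundary is modified -/
structure Cone (U V : ℝ) : Prop where
  c1 : 0 ≤ 15 * U + 8 * V
  c2 : 12 * U + 5 * V ≤ 0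

noncomputable def Bq (p h R U V : ℝ) : ℝ := (5 + 4 * p) * R - 3 * U - 4 * h * V
noncomputable def Aq (a h R U V : ℝ) : ℝ := (5 - 4 * a) * R - 3 * U - 4 * h * V
noncomputable def Hq (a p h R U V : ℝ) : ℝ :=
  (4 * U - 5 * R) / 9 + 5 * (a + p) / 9 * (R * (7 * R - 5 * U) / Bq p h R U V)
noncomputable def PhiQ (a p h R U V : ℝ) : ℝ :=
  (7 * R - 5 * U) * Aq a h R U V - 3 / 5 * (5 * R - 3 * U - 12) * Bq p h R U V

theorem Cone.V_nonneg {U V : ℝ} (C : Cone U V) : 0 ≤ V := by linarith [C.c1, C.c2]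
theorem Cone.U_nonpos {U V : ℝ} (C : Cone U V) : U ≤ 0 := by linarith [C.c1, C.c2]

theorem Cone.smul {U V r : ℝ} (C : Cone U V) (hr : 0 ≤ r) : Cone (r * U) (r * V) := by
  constructor
  · have := mul_nonneg hr C.c1; linarith
  · have := mul_nonpos_of_nonneg_of_nonpos hr C.c2; linarith

theorem Cone.unit {U V R : ℝ} (C : Cone U V) (hR : R ^ 2 = U ^ 2 + V ^ 2) (hR0 : 0 < R) :
    (U / R) ^ 2 + (V / R) ^ 2 = 1 ∧ Cone (U / R) (V / R) := by
  constructor
  · rw [div_pow, div_pow, ← add_div, ← hR, div_self (by positivity)]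
  · have := C.smul (r := R⁻¹) (by positivity)
    rwa [inv_mul_eq_div, inv_mul_eq_div] at this

theorem a_range {a p h : ℝ} (P : Par a p h) : 4 / 5 ≤ a ∧ a ≤ 365 / 436 := by
  have := p_range P.hp P.h1 P.h2 P.hp0
  constructor
  · linarith [P.ha]
  · linarith [P.k1, P.h1]

theorem Bq_pos {a p h R U V : ℝ} (P : Par a p h) (C : Cone U V)
    (hR : R ^ 2 = U ^ 2 + V ^ 2) (hR0 : 0 < R) : 0 < Bq p h R U V := by
  obtain ⟨hu, Cu⟩ := C.unit hR hR0
  have := (B_range hu Cu.c1 Cu.c2 P.hp P.h1 P.h2 P.hp0).1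
  have e : Bq p h R U V = R * (5 + 4 * p - 3 * (U / R) - 4 * h * (V / R)) := by
    unfold Bq; field_simp
  rw [e]
  apply mul_pos hR0; linarith

theorem Aq_pos {a p h R U V : ℝ} (P : Par a p h) (C : Cone U V)
    (hR : R ^ 2 = U ^ 2 + V ^ 2) (hR0 : 0 < R) : 0 < Aq a h R U V := by
  obtain ⟨hu, Cu⟩ := C.unit hR hR0
  obtain ⟨a1, a2, a3, a4⟩ := cone_range hu Cu.c1 Cu.c2
  have e : Aq a h R U V = R * (5 - 4 * a - 3 * (U / R) - 4 * (h * (V / R))) := by
    unfold Aq; field_simp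
  have e1 : h * (V / R) ≤ 3 / 5 * (12 / 13) := by
    apply mul_le_mul P.h2 a4 (by linarith) (by norm_num)
  rw [e]
  apply mul_pos hR0; linarith [(a_range P).2]

theorem N_pos {R U V : ℝ} (C : Cone U V) (hR0 : 0 < R) : 0 < 7 * R - 5 * U := by
  linarith [C.U_nonpos]

theorem Phi_eq {a p h R U V : ℝ} (hB : Bq p h R U V ≠ 0) :
    PhiQ a p h R U V = 36 / 5 * Bq p h R U V * (1 - Hq a p h R U V) := by
  have e : Aq a h R U V = Bq p h R U V - 4 * (a + p) * R := by unfold Aq Bq; ring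
  unfold PhiQ Hq
  rw [e]
  field_simp
  ring

theorem H_eq2 {a p h R U V : ℝ} (hB : Bq p h R U V ≠ 0) :
    Hq a p h R U V = (5 * R - 3 * U) / 12
      - 5 / 36 * ((7 * R - 5 * U) * Aq a h R U V / Bq p h R U V) := by
  have e : Aq a h R U V = Bq p h R U V - 4 * (a + p) * R := by unfold Aq Bq; ring
  unfold Hq
  rw [e]
  field_simp
  ring

theorem Phi_pos_iff {a p h R U V : ℝ} (P : Par a p h) (C : Cone U V)
    (hR : R ^ 2 = U ^ 2 + V ^ 2) (hR0 : 0 < R) : 0 < PhiQ a p h R U V ↔ Hq a p h R U V < 1 := by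
  have hB := Bq_pos P C hR hR0
  rw [Phi_eq hB.ne']
  constructor
  · intro h1
    have := (mul_pos_iff_of_pos_left (by positivity)).mp h1
    linarith
  · intro h1
    apply mul_pos (by positivity); linarith

theorem Phi_nonneg_iff {a p h R U V : ℝ} (P : Par a p h) (C : Cone U V)
    (hR : R ^ 2 = U ^ 2 + V ^ 2) (hR0 : 0 < R) : 0 ≤ PhiQ a p h R U V ↔ Hq a p h R U V ≤ 1 := by
  have hB := Bq_pos P C hR hR0
  rw [Phi_eq hB.ne']
  constructor
  · intro h1
    have := nonneg_of_mul_nonneg_right h1 (by positivity)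
    linarith
  · intro h1
    apply mul_nonneg (by positivity); linarith

theorem H_lt_one_of {a p h R U V : ℝ} (P : Par a p h) (C : Cone U V)
    (hR : R ^ 2 = U ^ 2 + V ^ 2) (hR0 : 0 < R) (hQ : 5 * R - 3 * U ≤ 12) :
    Hq a p h R U V < 1 := by
  have hB := Bq_pos P C hR hR0
  have hA := Aq_pos P C hR hR0
  have hN := N_pos C hR0
  rw [H_eq2 hB.ne']
  have : 0 < (7 * R - 5 * U) * Aq a h R U V / Bq p h R U V := by positivity
  linarith

theorem H_zero {a p h : ℝ} : Hq a p h 0 0 0 = 0 := by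
  unfold Hq Bq; simp

theorem H_smul {a p h R U V r : ℝ} (hr : 0 < r) :
    Hq a p h (r * R) (r * U) (r * V) = r * Hq a p h R U V := by
  have e : Bq p h (r * R) (r * U) (r * V) = r * Bq p h R U V := by unfold Bq; ring
  unfold Hq
  rw [e]
  have e2 : r * R * (7 * (r * R) - 5 * (r * U)) / (r * Bq p h R U V)
      = r * (R * (7 * R - 5 * U) / Bq p h R U V) := by
    rw [show r * R * (7 * (r * R) - 5 * (r * U)) = r * (r * (R * (7 * R - 5 * U))) by ring]
    rw [mul_div_mul_left _ _ hr.ne', mul_div_assoc]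
  rw [e2]; ring

/-- the tangent functional at the unit direction `(u0, v0)` -/
noncomputable def ellq (a p h u0 v0 U V : ℝ) : ℝ :=
  (4 * U - 5 * (U * u0 + V * v0)) / 9 + 5 * (a + p) / 9 *
    (((U * u0 + V * v0) * (7 - 5 * u0) + (7 * (U * u0 + V * v0) - 5 * U)) / Bq p h 1 u0 v0
      - (7 - 5 * u0) * ((5 + 4 * p) * (U * u0 + V * v0) - 3 * U - 4 * h * V)
        / Bq p h 1 u0 v0 ^ 2)

theorem ellq_lin {a p h u0 v0 U V U1 V1 U2 V2 s t : ℝ} (hU : U = s * U1 + t * U2)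
    (hV : V = s * V1 + t * V2) :
    ellq a p h u0 v0 U V = s * ellq a p h u0 v0 U1 V1 + t * ellq a p h u0 v0 U2 V2 := by
  subst hU hV
  unfold ellq
  ring

theorem H_tangent_unit {a p h u v u0 v0 : ℝ} (P : Par a p h) (C : Cone u v) (C0 : Cone u0 v0)
    (hu : u ^ 2 + v ^ 2 = 1) (hu0 : u0 ^ 2 + v0 ^ 2 = 1) :
    ellq a p h u0 v0 u v + 5 * (a + p) / 9 * ((u - u0) ^ 2 / 100) ≤ Hq a p h 1 u v := by
  have hB := Bq_pos P C (R := 1) (by linarith) (by norm_num)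
  have hB0 := Bq_pos P C0 (R := 1) (by linarith) (by norm_num)
  have hap : 0 < a + p := by linarith [P.ha, P.hp0]
  have key := T_unit hu C.c1 C.c2 hu0 C0.c1 C0.c2 P.hp P.h1 P.h2 P.hp0 P.ha
    (Bq p h 1 u v) (Bq p h 1 u0 v0) (7 - 5 * u) (7 - 5 * u0)
    (by unfold Bq; ring) (by unfold Bq; ring) rfl rfl
  have id : Hq a p h 1 u v - ellq a p h u0 v0 u v = 5 * (a + p) / 9 *
      ((Bq p h 1 u0 v0 - Bq p h 1 u v) *
        ((7 - 5 * u) * Bq p h 1 u0 v0 - (7 - 5 * u0) * Bq p h 1 u v)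
        / (Bq p h 1 u v * Bq p h 1 u0 v0 ^ 2)
      + (1 - (u * u0 + v * v0)) * ((7 - 5 * u0 + 7) / Bq p h 1 u0 v0
        - (5 + 4 * p) * (7 - 5 * u0) / Bq p h 1 u0 v0 ^ 2 - 1 / (a + p))) := by
    have e1 : (5 + 4 * p) * (u * u0 + v * v0) - 3 * u - 4 * h * v
        = Bq p h 1 u v - (5 + 4 * p) * (1 - (u * u0 + v * v0)) := by unfold Bq; ring
    unfold ellq Hq
    rw [e1]
    generalize Bq p h 1 u v = B at *
    generalize Bq p h 1 u0 v0 = B0 at *
    have hB' : B ≠ 0 := hB.ne'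
    have hB0' : B0 ≠ 0 := hB0.ne'
    have hap' : a + p ≠ 0 := hap.ne'
    field_simp
    ring
  have : 0 ≤ 5 * (a + p) / 9 := by positivity
  have := mul_le_mul_of_nonneg_left key this
  linarith

theorem ellq_smul {a p h u0 v0 u v r : ℝ} :
    ellq a p h u0 v0 (r * u) (r * v) = r * ellq a p h u0 v0 u v := by
  unfold ellq
  ring

theorem ellq_self {a p h u0 v0 : ℝ} (P : Par a p h) (C0 : Cone u0 v0)
    (hu0 : u0 ^ 2 + v0 ^ 2 = 1) : ellq a p h u0 v0 u0 v0 = Hq a p h 1 u0 v0 := by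
  have hB0 := Bq_pos P C0 (R := 1) (by linarith) (by norm_num)
  have e : u0 * u0 + v0 * v0 = 1 := by linarith
  have e2 : (5 + 4 * p) * 1 - 3 * u0 - 4 * h * v0 = Bq p h 1 u0 v0 := by unfold Bq; ring
  unfold ellq Hq
  rw [e, e2]
  field_simp
  ring

/-- tangent inequality -/
theorem H_tangent {a p h U V R u0 v0 : ℝ} (P : Par a p h) (C : Cone U V) (C0 : Cone u0 v0)
    (hR : R ^ 2 = U ^ 2 + V ^ 2) (hR0 : 0 ≤ R) (hu0 : u0 ^ 2 + v0 ^ 2 = 1) :
    ellq a p h u0 v0 U V ≤ Hq a p h R U V := by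
  rcases eq_or_lt_of_le hR0 with h0 | hpos
  · have hU : U = 0 := by nlinarith
    have hV : V = 0 := by nlinarith
    subst hU hV
    rw [← h0, H_zero]
    unfold ellq
    simp
  · obtain ⟨hu, Cu⟩ := C.unit hR hpos
    have h1 := H_tangent_unit P Cu C0 hu hu0
    have e1 : U = R * (U / R) := by field_simp
    have e2 : V = R * (V / R) := by field_simp
    have e3 : Hq a p h R U V = R * Hq a p h 1 (U / R) (V / R) := by
      rw [← H_smul hpos, mul_one, ← e1, ← e2]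
    have e4 : ellq a p h u0 v0 U V = R * ellq a p h u0 v0 (U / R) (V / R) := by
      rw [← ellq_smul, ← e1, ← e2]
    rw [e3, e4]
    apply mul_le_mul_of_nonneg_left _ hR0
    have : 0 ≤ 5 * (a + p) / 9 * ((U / R - u0) ^ 2 / 100) := by
      have : 0 < a + p := by linarith [P.ha, P.hp0]
      positivity
    linarith

theorem H_tangent_lt {a p h U V R u0 v0 : ℝ} (P : Par a p h) (C : Cone U V) (C0 : Cone u0 v0)
    (hR : R ^ 2 = U ^ 2 + V ^ 2) (hR0 : 0 < R) (hu0 : u0 ^ 2 + v0 ^ 2 = 1)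
    (hne : U / R ≠ u0) :
    ellq a p h u0 v0 U V < Hq a p h R U V := by
  obtain ⟨hu, Cu⟩ := C.unit hR hR0
  have h1 := H_tangent_unit P Cu C0 hu hu0
  have e1 : U = R * (U / R) := by field_simp
  have e2 : V = R * (V / R) := by field_simp
  have e3 : Hq a p h R U V = R * Hq a p h 1 (U / R) (V / R) := by
    rw [← H_smul hR0, mul_one, ← e1, ← e2]
  have e4 : ellq a p h u0 v0 U V = R * ellq a p h u0 v0 (U / R) (V / R) := by
    rw [← ellq_smul, ← e1, ← e2]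
  rw [e3, e4]
  apply mul_lt_mul_of_pos_left _ hR0
  have : 0 < 5 * (a + p) / 9 * ((U / R - u0) ^ 2 / 100) := by
    have h3 : 0 < a + p := by linarith [P.ha, P.hp0]
    have h4 : 0 < (U / R - u0) ^ 2 := by
      have : U / R - u0 ≠ 0 := sub_ne_zero.mpr hne
      positivity
    positivity
  linarith

/-- convexity of `Hq` on the cone -/
theorem H_conv {a p h U1 V1 R1 U2 V2 R2 U V R t : ℝ} (P : Par a p h)
    (C1 : Cone U1 V1) (C2 : Cone U2 V2)
    (hR1 : R1 ^ 2 = U1 ^ 2 + V1 ^ 2) (hR10 : 0 ≤ R1)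
    (hR2 : R2 ^ 2 = U2 ^ 2 + V2 ^ 2) (hR20 : 0 ≤ R2)
    (hR : R ^ 2 = U ^ 2 + V ^ 2) (hR0 : 0 < R) (ht0 : 0 ≤ t) (ht1 : t ≤ 1)
    (hU : U = (1 - t) * U1 + t * U2) (hV : V = (1 - t) * V1 + t * V2) :
    Hq a p h R U V ≤ (1 - t) * Hq a p h R1 U1 V1 + t * Hq a p h R2 U2 V2 := by
  have C : Cone U V := by
    constructor
    · rw [hU, hV]
      have := mul_nonneg (sub_nonneg.mpr ht1) C1.c1
      have := mul_nonneg ht0 C2.c1
      linarith
    · rw [hU, hV]
      have := mul_nonpos_of_nonneg_of_nonpos (sub_nonneg.mpr ht1) C1.c2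
      have := mul_nonpos_of_nonneg_of_nonpos ht0 C2.c2
      linarith
  obtain ⟨hu, Cu⟩ := C.unit hR hR0
  have e1 : U = R * (U / R) := by field_simp
  have e2 : V = R * (V / R) := by field_simp
  have e3 : Hq a p h R U V = R * Hq a p h 1 (U / R) (V / R) := by
    rw [← H_smul hR0, mul_one, ← e1, ← e2]
  have e4 : ellq a p h (U / R) (V / R) U V = R * ellq a p h (U / R) (V / R) (U / R) (V / R) := by
    rw [← ellq_smul, ← e1, ← e2]
  rw [ellq_self P Cu hu, ← e3] at e4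
  rw [← e4, ellq_lin hU hV]
  have h1 := mul_le_mul_of_nonneg_left (H_tangent P C1 Cu hR1 hR10 hu) (sub_nonneg.mpr ht1)
  have h2 := mul_le_mul_of_nonneg_left (H_tangent P C2 Cu hR2 hR20 hu) ht0
  linarith

/-- strict convexity of `Hq` on the cone -/
theorem H_conv_lt {a p h U1 V1 R1 U2 V2 R2 U V R t : ℝ} (P : Par a p h)
    (C1 : Cone U1 V1) (C2 : Cone U2 V2)
    (hR1 : R1 ^ 2 = U1 ^ 2 + V1 ^ 2) (hR10 : 0 < R1)
    (hR2 : R2 ^ 2 = U2 ^ 2 + V2 ^ 2) (hR20 : 0 ≤ R2)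
    (hR : R ^ 2 = U ^ 2 + V ^ 2) (hR0 : 0 < R) (ht0 : 0 < t) (ht1 : t < 1)
    (hU : U = (1 - t) * U1 + t * U2) (hV : V = (1 - t) * V1 + t * V2)
    (hne : U1 / R1 ≠ U / R) :
    Hq a p h R U V < (1 - t) * Hq a p h R1 U1 V1 + t * Hq a p h R2 U2 V2 := by
  have C : Cone U V := by
    constructor
    · rw [hU, hV]
      have := mul_nonneg (sub_nonneg.mpr ht1.le) C1.c1
      have := mul_nonneg ht0.le C2.c1
      linarith
    · rw [hU, hV]
      have := mul_nonpos_of_nonneg_of_nonpos (sub_nonneg.mpr ht1.le) C1.c2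
      have := mul_nonpos_of_nonneg_of_nonpos ht0.le C2.c2
      linarith
  obtain ⟨hu, Cu⟩ := C.unit hR hR0
  have e1 : U = R * (U / R) := by field_simp
  have e2 : V = R * (V / R) := by field_simp
  have e3 : Hq a p h R U V = R * Hq a p h 1 (U / R) (V / R) := by
    rw [← H_smul hR0, mul_one, ← e1, ← e2]
  have e4 : ellq a p h (U / R) (V / R) U V = R * ellq a p h (U / R) (V / R) (U / R) (V / R) := by
    rw [← ellq_smul, ← e1, ← e2]
  rw [ellq_self P Cu hu, ← e3] at e4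
  rw [← e4, ellq_lin hU hV]
  have h1 := mul_lt_mul_of_pos_left (H_tangent_lt P C1 Cu hR1 hR10 hu hne) (sub_pos.mpr ht1)
  have h2 := mul_le_mul_of_nonneg_left (H_tangent P C2 Cu hR2 hR20 hu) ht0.le
  linarith

/-- boundary rays of the cone: `Hq` is at most the value of the disc -/
theorem H_bdry1 {a p h U V R : ℝ} (P : Par a p h) (hR : R ^ 2 = U ^ 2 + V ^ 2) (hR0 : 0 < R)
    (hV : 0 ≤ V) (hb : 12 * U + 5 * V = 0) : Hq a p h R U V ≤ (5 * R + 4 * U) / 9 := by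
  have hV2 : V = -12 / 5 * U := by linarith
  have hRU : R = -13 / 5 * U := by
    have h1 : R ^ 2 = (-13 / 5 * U) ^ 2 := by rw [hR, hV2]; ring
    have h2 : 0 ≤ -13 / 5 * U := by linarith
    exact (pow_left_inj₀ hR0.le h2 (by norm_num)).mp h1
  have hU : U < 0 := by linarith
  have C : Cone U V := ⟨by rw [hV2]; linarith, by linarith⟩
  have hB := Bq_pos P C hR hR0
  unfold Hq
  have e : Bq p h R U V = -U / 5 * (80 + 52 * p - 48 * h) := by
    unfold Bq; rw [hRU, hV2]; ring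
  have hden : 0 < 80 + 52 * p - 48 * h := by linarith [P.hp0, P.h2]
  have e2 : R * (7 * R - 5 * U) / Bq p h R U V
      = (-U) * (13 * 116 / 5 / (80 + 52 * p - 48 * h)) := by
    rw [e, hRU]
    have : U ≠ 0 := hU.ne
    field_simp
    ring
  rw [e2]
  have key : 5 * (a + p) / 9 * (13 * 116 / 5 / (80 + 52 * p - 48 * h)) ≤ 26 / 9 := by
    rw [← mul_div_assoc, div_le_iff₀ hden]
    nlinarith [P.k1, P.ha]
  have h3 := mul_le_mul_of_nonneg_left key (show 0 ≤ -U by linarith)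
  rw [hRU]
  linarith

theorem H_bdry2 {a p h U V R : ℝ} (P : Par a p h) (hR : R ^ 2 = U ^ 2 + V ^ 2) (hR0 : 0 < R)
    (hV : 0 ≤ V) (hb : 15 * U + 8 * V = 0) : Hq a p h R U V ≤ (5 * R + 4 * U) / 9 := by
  have hV2 : V = -15 / 8 * U := by linarith
  have hRU : R = -17 / 8 * U := by
    have h1 : R ^ 2 = (-17 / 8 * U) ^ 2 := by rw [hR, hV2]; ring
    have h2 : 0 ≤ -17 / 8 * U := by linarith
    exact (pow_left_inj₀ hR0.le h2 (by norm_num)).mp h1
  have hU : U < 0 := by linarith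
  have C : Cone U V := ⟨by linarith, by rw [hV2]; linarith⟩
  have hB := Bq_pos P C hR hR0
  unfold Hq
  have e : Bq p h R U V = -U / 8 * (109 + 68 * p - 60 * h) := by
    unfold Bq; rw [hRU, hV2]; ring
  have hden : 0 < 109 + 68 * p - 60 * h := by linarith [P.hp0, P.h2]
  have e2 : R * (7 * R - 5 * U) / Bq p h R U V
      = (-U) * (17 * 159 / 8 / (109 + 68 * p - 60 * h)) := by
    rw [e, hRU]
    have : U ≠ 0 := hU.ne
    field_simp
    ring
  rw [e2]
  have key : 5 * (a + p) / 9 * (17 * 159 / 8 / (109 + 68 * p - 60 * h)) ≤ 85 / 36 := by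
    rw [← mul_div_assoc, div_le_iff₀ hden]
    nlinarith [P.k2, P.ha]
  have h3 := mul_le_mul_of_nonneg_left key (show 0 ≤ -U by linarith)
  rw [hRU]
  linarith

end Pool.Agent.Lib.MP_3498ef_gt
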