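import Mathlib

set_option autoImplicit false

namespace Pool.Agent.Lib.MP_3498ef_gt

/-- ranges for unit vectors in the cone -/
theorem cone_range {u v : ℝ} (hu : u ^ 2 + v ^ 2 = 1) (c1 : 0 ≤ 15 * u + 8 * v)
    (c2 : 12 * u + 5 * v ≤ 0) :
    -8 / 17 ≤ u ∧ u ≤ -5 / 13 ∧ 15 / 17 ≤ v ∧ v ≤ 12 / 13 := by
  have hv : 0 ≤ v := by linarith
  have hu0 : u ≤ 0 := by linarith
  have h1 : u ^ 2 ≤ (8 / 17) ^ 2 := by nlinarith
  have h2 : (5 / 13) ^ 2 ≤ u ^ 2 := by nlinarith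
  have h3 : -8 / 17 ≤ u := by nlinarith
  have h4 : u ≤ -5 / 13 := by nlinarith
  refine ⟨h3, h4, ?_, ?_⟩
  · nlinarith
  · nlinarith

theorem p_range {h p : ℝ} (hp : p ^ 2 + h ^ 2 = 1) (h1 : 60 / 109 ≤ h) (h2 : h ≤ 3 / 5)
    (hp0 : 0 < p) : 4 / 5 ≤ p ∧ p ≤ 91 / 109 := by
  constructor
  · nlinarith
  · nlinarith

theorem B_range {u v h p : ℝ} (hu : u ^ 2 + v ^ 2 = 1) (c1 : 0 ≤ 15 * u + 8 * v)
    (c2 : 12 * u + 5 * v ≤ 0) (hp : p ^ 2 + h ^ 2 = 1) (h1 : 60 / 109 ≤ h) (h2 : h ≤ 3 / 5)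
    (hp0 : 0 < p) :
    713 / 100 ≤ 5 + 4 * p - 3 * u - 4 * h * v ∧ 5 + 4 * p - 3 * u - 4 * h * v ≤ 781 / 100 := by
  obtain ⟨a1, a2, a3, a4⟩ := cone_range hu c1 c2
  obtain ⟨b1, b2⟩ := p_range hp h1 h2 hp0
  have e1 : h * v ≤ 3 / 5 * (12 / 13) := by
    apply mul_le_mul h2 a4 (by linarith) (by norm_num)
  have e2 : 60 / 109 * (15 / 17) ≤ h * v := by
    apply mul_le_mul h1 a3 (by norm_num) (by linarith)
  constructor
  · nlinarith
  · nlinarith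

theorem K0_bound {u v h p a : ℝ} (hu : u ^ 2 + v ^ 2 = 1) (c1 : 0 ≤ 15 * u + 8 * v)
    (c2 : 12 * u + 5 * v ≤ 0) (hp : p ^ 2 + h ^ 2 = 1) (h1 : 60 / 109 ≤ h) (h2 : h ≤ 3 / 5)
    (hp0 : 0 < p) (ha : p ≤ a) :
    3 / 25 ≤ ((7 - 5 * u) + 7) / (5 + 4 * p - 3 * u - 4 * h * v)
      - (5 + 4 * p) * (7 - 5 * u) / (5 + 4 * p - 3 * u - 4 * h * v) ^ 2 - 1 / (a + p) := by
  obtain ⟨a1, a2, a3, a4⟩ := cone_range hu c1 c2
  obtain ⟨b1, b2⟩ := p_range hp h1 h2 hp0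
  obtain ⟨B1, B2⟩ := B_range hu c1 c2 hp h1 h2 hp0
  have e1 : h * v ≤ 3 / 5 * (12 / 13) := by
    apply mul_le_mul h2 a4 (by linarith) (by norm_num)
  have e2 : 60 / 109 * (15 / 17) ≤ h * v := by
    apply mul_le_mul h1 a3 (by norm_num) (by linarith)
  set t := 3 * u + 4 * (h * v) with ht
  set b := 5 + 4 * p with hb
  have t1 : 1 / 2 ≤ t := by rw [ht]; linarith
  have t2 : t ≤ 107 / 100 := by rw [ht]; linarith
  have bb1 : 82 / 10 ≤ b := by rw [hb]; linarith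
  have bb2 : b ≤ 834 / 100 := by rw [hb]; linarith
  have hB : 5 + 4 * p - 3 * u - 4 * h * v = b - t := by rw [hb, ht]; ring
  rw [hB] at B1 B2 ⊢
  have hBpos : 0 < b - t := by linarith
  have hap : 1 / (a + p) ≤ 5 / 8 := by
    rw [div_le_div_iff₀ (by linarith) (by norm_num)]
    linarith
  have key : 149 / 200 * (b - t) ^ 2 ≤ ((7 - 5 * u) + 7) * (b - t) - b * (7 - 5 * u) := by
    have e3 : t * (14 - 5 * u) ≤ t * (14 + 40 / 17) := by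
      apply mul_le_mul_of_nonneg_left _ (by linarith); linarith
    nlinarith [mul_nonneg (sub_nonneg.mpr t1) (sub_nonneg.mpr t2),
      mul_nonneg (sub_nonneg.mpr bb1) (sub_nonneg.mpr bb2),
      mul_nonneg (sub_nonneg.mpr t2) (sub_nonneg.mpr bb1),
      mul_nonneg (sub_nonneg.mpr t2) (sub_nonneg.mpr bb2)]
  have e4 : ((7 - 5 * u) + 7) / (b - t) - b * (7 - 5 * u) / (b - t) ^ 2
      = (((7 - 5 * u) + 7) * (b - t) - b * (7 - 5 * u)) / (b - t) ^ 2 := by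
    field_simp
  have e5 : 149 / 200 ≤ ((7 - 5 * u) + 7) / (b - t) - b * (7 - 5 * u) / (b - t) ^ 2 := by
    rw [e4, le_div_iff₀ (by positivity)]
    exact key
  linarith

/-- the main one-variable (angular) inequality: tangent inequality for unit vectors -/
theorem T_unit {u v u0 v0 h p a : ℝ} (hu : u ^ 2 + v ^ 2 = 1) (c1 : 0 ≤ 15 * u + 8 * v)
    (c2 : 12 * u + 5 * v ≤ 0) (hu0 : u0 ^ 2 + v0 ^ 2 = 1) (c10 : 0 ≤ 15 * u0 + 8 * v0)
    (c20 : 12 * u0 + 5 * v0 ≤ 0) (hp : p ^ 2 + h ^ 2 = 1) (h1 : 60 / 109 ≤ h) (h2 : h ≤ 3 / 5)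
    (hp0 : 0 < p) (ha : p ≤ a) (B B0 N N0 : ℝ) (hB : B = 5 + 4 * p - 3 * u - 4 * h * v)
    (hB0 : B0 = 5 + 4 * p - 3 * u0 - 4 * h * v0) (hN : N = 7 - 5 * u) (hN0 : N0 = 7 - 5 * u0) :
    (u - u0) ^ 2 / 100 ≤ (B0 - B) * (N * B0 - N0 * B) / (B * B0 ^ 2)
      + (1 - (u * u0 + v * v0)) * ((N0 + 7) / B0 - (5 + 4 * p) * N0 / B0 ^ 2 - 1 / (a + p)) := by
  obtain ⟨a1, a2, a3, a4⟩ := cone_range hu c1 c2
  obtain ⟨a10, a20, a30, a40⟩ := cone_range hu0 c10 c20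
  obtain ⟨b1, b2⟩ := p_range hp h1 h2 hp0
  obtain ⟨B1, B2⟩ := B_range hu c1 c2 hp h1 h2 hp0
  obtain ⟨B10, B20⟩ := B_range hu0 c10 c20 hp h1 h2 hp0
  have hK := K0_bound hu0 c10 c20 hp h1 h2 hp0 ha
  rw [← hB] at B1 B2
  rw [← hB0, ← hN0] at hK
  rw [← hB0] at B10 B20
  set K0 := (N0 + 7) / B0 - (5 + 4 * p) * N0 / B0 ^ 2 - 1 / (a + p) with hK0
  have hvs : 0 < v + v0 := by linarith
  set κ := -(u + u0) / (v + v0) with hκ
  have hκv : κ * (v + v0) = -(u + u0) := by rw [hκ]; field_simp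
  have k1 : 5 / 12 ≤ κ := by
    rw [hκ, le_div_iff₀ hvs]; linarith
  have k2 : κ ≤ 8 / 15 := by
    rw [hκ, div_le_iff₀ hvs]; linarith
  set d := u - u0 with hd
  have hdv : v - v0 = κ * d := by
    have : (v - v0) * (v + v0) = κ * d * (v + v0) := by
      have e : κ * d * (v + v0) = d * (κ * (v + v0)) := by ring
      rw [e, hκv, hd]; linear_combination hu - hu0
    exact mul_right_cancel₀ hvs.ne' this
  set g := 3 + 4 * h * κ with hg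
  have hk0 : 0 < κ := by linarith
  have hk1 : h * κ ≤ 3 / 5 * (8 / 15) := by
    apply mul_le_mul h2 k2 (by linarith) (by norm_num)
  have hk2 : 60 / 109 * (5 / 12) ≤ h * κ := by
    apply mul_le_mul h1 k1 (by norm_num) (by linarith)
  have g1 : 391 / 100 ≤ g := by rw [hg]; linarith
  have g2 : g ≤ 428 / 100 := by rw [hg]; linarith
  have eB : B0 - B = g * d := by
    rw [hB0, hB, hg, hd]
    have : v0 = v - κ * (u - u0) := by rw [← hd, ← hdv]; ring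
    rw [this]; ring
  have eN : N * B0 - N0 * B = d * (N * g - 5 * B) := by
    have e1 : B0 = B + g * d := by linarith
    rw [e1, hN, hN0, hd]; ring
  have ed : 1 - (u * u0 + v * v0) = d ^ 2 * ((1 + κ ^ 2) / 2) := by
    have e1 : d ^ 2 * (1 + κ ^ 2) = d ^ 2 + (κ * d) ^ 2 := by ring
    have e2 : d ^ 2 * ((1 + κ ^ 2) / 2) = (d ^ 2 + (κ * d) ^ 2) / 2 := by rw [← e1]; ring
    rw [e2, ← hdv, hd]; linear_combination (-(hu + hu0) / 2)
  have hNr1 : 892 / 100 ≤ N := by rw [hN]; linarith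
  have hX : -43 / 10 ≤ N * g - 5 * B := by
    have := mul_le_mul hNr1 g1 (by norm_num) (by linarith)
    linarith
  have hBB : 362 ≤ B * B0 ^ 2 := by
    have e1 : (713 / 100 : ℝ) ^ 2 ≤ B0 ^ 2 := pow_le_pow_left₀ (by norm_num) B10 2
    have e2 := mul_le_mul B1 e1 (by norm_num) (by linarith)
    norm_num at e2
    linarith
  have hfirst : -(19 / 362) ≤ g * (N * g - 5 * B) / (B * B0 ^ 2) := by
    rw [le_div_iff₀ (by linarith)]
    have e1 : g * (-43 / 10) ≤ g * (N * g - 5 * B) :=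
      mul_le_mul_of_nonneg_left hX (by linarith)
    linarith
  have hsecond : 7 / 100 ≤ (1 + κ ^ 2) / 2 * K0 := by
    have e1 : (5 / 12 : ℝ) ^ 2 ≤ κ ^ 2 := pow_le_pow_left₀ (by norm_num) k1 2
    have e2 : (1 + (5 / 12 : ℝ) ^ 2) / 2 ≤ (1 + κ ^ 2) / 2 := by linarith
    have e3 := mul_le_mul e2 hK (by norm_num) (by linarith [sq_nonneg κ])
    norm_num at e3
    linarith
  rw [eB, eN, ed]
  have e3 : g * d * (d * (N * g - 5 * B)) / (B * B0 ^ 2)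
      = d ^ 2 * (g * (N * g - 5 * B) / (B * B0 ^ 2)) := by ring
  rw [e3]
  have e4 : d ^ 2 * ((1 + κ ^ 2) / 2) * K0 = d ^ 2 * ((1 + κ ^ 2) / 2 * K0) := by ring
  rw [e4, ← mul_add]
  have : 1 / 100 ≤ g * (N * g - 5 * B) / (B * B0 ^ 2) + (1 + κ ^ 2) / 2 * K0 := by
    linarith
  have hd2 : 0 ≤ d ^ 2 := sq_nonneg d
  have := mul_le_mul_of_nonneg_left this hd2
  linarith

end Pool.Agent.Lib.MP_3498ef_gt
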