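import Pool.Agent.Lib.MP_3498ef_gt.Foot

set_option autoImplicit false

open Set

namespace Pool.Agent.Lib.MP_3498ef_gt

theorem foot_exists {X : Plane} (hX : X ∈ Om) (hR : Rx X ≤ 3 * X 0) :
    ∃ (Y : Plane) (φ ψ : Plane → ℝ), Foot X Y φ ψ := by
  have hd := disc_of_G_lt hX.1
  by_cases hy : X 1 ≤ 60 / 109 ∨ 3 / 5 ≤ X 1
  · have h1 : 0 < 1 - X 1 ^ 2 := by nlinarith [sq_nonneg (X 0)]
    refine ⟨_, _, _, foot_horiz hX hR hy (c := Real.sqrt (1 - X 1 ^ 2)) (Real.sqrt_pos.mpr h1) ?_⟩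
    rw [Real.sq_sqrt h1.le]; ring
  · push Not at hy
    have hx0 : 0 ≤ X 0 := by linarith [Rx_nonneg X]
    have hx : 0 < X 0 := by
      rcases eq_or_lt_of_le hx0 with h | h
      · exfalso
        rw [← h] at hR
        have h2 : Rx X = 0 := le_antisymm (by linarith) (Rx_nonneg X)
        have h3 := Rx_sq X
        unfold Ux at h3
        rw [h2, ← h] at h3
        nlinarith [sq_nonneg (Vx X)]
      · exact h
    obtain ⟨s, _, Y, hf⟩ := foot_ivt hX hx hy.1.le hy.2.le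
    exact ⟨Y, _, _, hf⟩

theorem Q_eq {X : Plane} (hQ : Rx X = 3 * X 0) :
    16 * X 0 ^ 2 + 9 * X 1 ^ 2 - 40 * X 0 + 16 = 0 := by
  have h := Rx_sq X
  unfold Ux Vx at h
  rw [hQ] at h
  linarith

theorem Q_x_lt {X : Plane} (hX : X ∈ Om) (hQ : Rx X = 3 * X 0) : X 0 < 5 / 7 := by
  have := Rx_lt_of_disc (disc_of_G_lt hX.1)
  linarith

theorem Q_x_ge {X : Plane} (hQ : Rx X = 3 * X 0) : 1 / 2 ≤ X 0 := by
  have h := Q_eq hQ
  nlinarith [sq_nonneg (X 1)]

theorem Hz_on_Q {s : ℝ} (hs : s ∈ I0) {X : Plane} (hX : X ∈ Om) (hQ : Rx X = 3 * X 0) :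
    Hz s X = 1 - 5 * (5 - X 0) / 9 * (lin (-aa s) (hh s) X / lin (ap s) (hh s) X) := by
  have hψ := lin_pos (ap_sq hs) X hX
  have hB : Bq (ap s) (hh s) (Rx X) (Ux X) (Vx X) = 12 * lin (ap s) (hh s) X := by
    unfold Bq Ux Vx lin; rw [hQ]; ring
  have hA : Aq (aa s) (hh s) (Rx X) (Ux X) (Vx X) = 12 * lin (-aa s) (hh s) X := by
    unfold Aq Ux Vx lin; rw [hQ]; ring
  unfold Hz
  rw [H_eq2 (by rw [hB]; positivity), hA, hB]
  have e1 : (5 * Rx X - 3 * Ux X) / 12 = 1 := by unfold Ux; rw [hQ]; ring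
  have e2 : 7 * Rx X - 5 * Ux X = 4 * (5 - X 0) := by unfold Ux; rw [hQ]; ring
  rw [e1, e2]
  have e3 : 4 * (5 - X 0) * (12 * lin (-aa s) (hh s) X) / (12 * lin (ap s) (hh s) X)
      = 4 * (5 - X 0) * (lin (-aa s) (hh s) X / lin (ap s) (hh s) X) := by
    field_simp
  rw [e3]; ring

/-- the value of `E` from `X` back to the focus -/
theorem E_XF {X : Plane} (hX : X ∈ Om) (hQ : Rx X = 3 * X 0) :
    E Om X Fp = 5 * (5 - X 0) / 9 := by
  have hq := Q_eq hQ
  have hx1 := Q_x_lt hX hQ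
  have hx2 := Q_x_ge hQ
  set x := X 0 with hx
  set y := X 1 with hy
  have hd : 0 < 16 - 5 * x := by linarith
  set ρ := 9 / (16 - 5 * x) with hρ
  have hρd : ρ * (16 - 5 * x) = 9 := by rw [hρ]; field_simp
  have hρ0 : 0 < ρ := by positivity
  have hρ1 : ρ ≤ 63 / 87 := by
    rw [hρ, div_le_div_iff₀ hd (by norm_num)]; linarith
  have hcirc : (4 / 5 + ρ * (4 / 5 - x)) ^ 2 + (-(ρ * y)) ^ 2 = 1 := by
    have hk : (16 - 5 * x) ^ 2 * ((4 / 5 + ρ * (4 / 5 - x)) ^ 2 + (-(ρ * y)) ^ 2 - 1) = 0 := by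
      have e : (16 - 5 * x) ^ 2 * ((4 / 5 + ρ * (4 / 5 - x)) ^ 2 + (-(ρ * y)) ^ 2 - 1)
          = (4 / 5 * (16 - 5 * x) + (ρ * (16 - 5 * x)) * (4 / 5 - x)) ^ 2
            + (ρ * (16 - 5 * x)) ^ 2 * y ^ 2 - (16 - 5 * x) ^ 2 := by ring
      rw [e, hρd]
      linear_combination 9 * hq
    rcases mul_eq_zero.mp hk with h | h
    · exfalso; have : 0 < (16 - 5 * x) ^ 2 := by positivity
      linarith
    · linarith
  have hyJ : -(ρ * y) ≤ 60 / 109 := by
    have h1 : (ρ * y) ^ 2 ≤ (60 / 109) ^ 2 := by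
      have h2 : ρ ^ 2 ≤ (63 / 87) ^ 2 := pow_le_pow_left₀ hρ0.le hρ1 2
      have h3 : y ^ 2 ≤ 24 / 49 := by nlinarith
      have h4 : ρ ^ 2 * y ^ 2 ≤ (63 / 87) ^ 2 * (24 / 49) :=
        mul_le_mul h2 h3 (sq_nonneg _) (by norm_num)
      rw [mul_pow]
      refine h4.trans (by norm_num)
    have := abs_le_of_sq_le_sq h1 (by norm_num)
    linarith [(abs_le.mp this).1]
  set J : Plane := pt (4 / 5 + ρ * (4 / 5 - x)) (-(ρ * y)) with hJ
  have hJf : J ∈ frontier Om := by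
    apply circle_frontier
    · rw [hJ, pt0, pt1]; exact hcirc
    · rw [hJ, pt0, pt1]; exact ell_of_height hcirc (Or.inl hyJ)
    · intro s hs C
      apply (Hz_lt_of_lt hs C _).le
      rw [Rx_eq_of_circle (by rw [hJ, pt0, pt1]; exact hcirc), hJ, pt0]
      have : 0 < ρ * (4 / 5 - x) := mul_pos hρ0 (by linarith)
      linarith
  have hd2 : 0 < 25 - 5 * x := by linarith
  have hs1 : (16 - 5 * x) / (25 - 5 * x) * (1 + ρ) = 1 := by
    rw [div_mul_eq_mul_div, div_eq_one_iff_eq hd2.ne']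
    linarith
  have hray : Ray Om X Fp J ((16 - 5 * x) / (25 - 5 * x)) := by
    refine ⟨hJf, by positivity, by rw [div_lt_one hd2]; linarith, ?_⟩
    set r := (16 - 5 * x) / (25 - 5 * x) with hr
    apply pt_ext
    · rw [lm0, hJ, pt0]
      unfold Fp
      rw [pt0, ← hx]
      linear_combination (4 / 5 - x) * hs1
    · rw [lm1, hJ, pt1]
      unfold Fp
      rw [pt1, ← hy]
      linear_combination (-y) * hs1
  rw [E_eq isOpen_Om convex_Om hX hray]
  have : 1 - (16 - 5 * x) / (25 - 5 * x) = 9 / (25 - 5 * x) := by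
    field_simp; ring
  rw [this]
  field_simp
  ring

/-- the value of `E` from the focus to `X`, under the key hypothesis -/
theorem E_FX {X Y : Plane} {φ ψ : Plane → ℝ} (hf : Foot X Y φ ψ) (hQ : Rx X = 3 * X 0)
    {H : ℝ} (hH : H = 1 - 5 * (5 - X 0) / 9 * (φ X / ψ X))
    (hout : H = (35 * X 0 - 16) / 9 ∨ ∃ s ∈ I0, Cone (Ux X) (Vx X) ∧ Hz s X = H) :
    E Om Fp X * E Om X Fp = ψ X / φ X := by
  have hX := hf.memX
  have hq := Q_eq hQ
  have hx1 := Q_x_lt hX hQ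
  have hx2 := Q_x_ge hQ
  have hφ := hf.φpos X hX
  have hψ := hf.ψpos X hX
  have hψφ := hf.E_eq
  -- comparison with the disc functionals
  have hc2 : ((5 - 4 * X 0) / 3) ^ 2 + X 1 ^ 2 = 1 := by linarith
  have hdisc : (5 - X 0) / (5 - 7 * X 0) ≤ ψ X / φ X := by
    have h1 := pair_lower (X := X) (Y := Y) (isAff_lin (-((5 - 4 * X 0) / 3)) (X 1))
      (isAff_lin ((5 - 4 * X 0) / 3) (X 1)) (lin_pos (by linarith)) (lin_pos hc2)
      (by intro z hz; unfold lin; rw [hz]; ring) hX hf.memY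
    rw [hψφ] at h1
    refine le_trans (le_of_eq ?_) h1
    unfold lin
    have e1 : 1 + (5 - 4 * X 0) / 3 * X 0 - X 1 * X 1
        = (5 - 4 * X 0) / 9 * (5 - X 0) := by linear_combination (-1) * hc2
    have e2 : 1 + -((5 - 4 * X 0) / 3) * X 0 - X 1 * X 1
        = (5 - 4 * X 0) / 9 * (5 - 7 * X 0) := by linear_combination (-1) * hc2
    rw [e1, e2, mul_div_mul_left]
    have : 0 < (5 - 4 * X 0) / 9 := by linarith
    exact this.ne'
  have hpos57 : 0 < 5 - 7 * X 0 := by linarith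
  have hpos5 : 0 < 5 - X 0 := by linarith
  have hcomp : φ X / ψ X ≤ (5 - 7 * X 0) / (5 - X 0) := by
    rw [div_le_div_iff₀ hpos57 hφ] at hdisc
    rw [div_le_div_iff₀ hψ hpos5]
    linarith
  have hHge : (35 * X 0 - 16) / 9 ≤ H := by
    have e : 5 * (5 - X 0) / 9 * ((5 - 7 * X 0) / (5 - X 0)) = 5 * (5 - 7 * X 0) / 9 := by
      field_simp
    have := mul_le_mul_of_nonneg_left hcomp (show 0 ≤ 5 * (5 - X 0) / 9 by positivity)
    rw [e] at this
    rw [hH]; linarith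
  have hH0 : 0 < H := by linarith
  have hH1 : H < 1 := by
    rw [hH]
    have : 0 < 5 * (5 - X 0) / 9 * (φ X / ψ X) := by positivity
    linarith
  -- the point I
  set I : Plane := AffineMap.lineMap Fp X (1 / H) with hI
  have hlm : (AffineMap.lineMap Fp I H : Plane) = X := by
    rw [hI]
    apply pt_ext
    · rw [lm0, lm0]; field_simp; ring
    · rw [lm1, lm1]; field_simp; ring
  have hUF : Ux Fp = 0 := by unfold Ux Fp; rw [pt0]; norm_num
  have hVF : Vx Fp = 0 := by unfold Vx Fp; rw [pt1]; norm_num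
  have hIU : Ux I = 1 / H * Ux X := by rw [hI, Ux_lm, hUF]; ring
  have hIV : Vx I = 1 / H * Vx X := by rw [hI, Vx_lm, hVF]; ring
  have hIR : Rx I = 1 / H * Rx X := by
    have h3 : Rx I ^ 2 = (1 / H * Rx X) ^ 2 := by
      have hZ2 := Rx_sq X
      rw [Rx_sq, hIU, hIV]
      linear_combination (-((1 / H) ^ 2)) * hZ2
    exact (pow_left_inj₀ (Rx_nonneg _) (by have := Rx_nonneg X; positivity)
      (by norm_num)).mp h3
  have hI0 : I 0 ≤ 5 / 7 := by
    have h1 : Ux I ≤ Ux X := by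
      rw [hIU]
      have h2 : Ux X ≤ 0 := by unfold Ux; linarith
      have h3 : 1 ≤ 1 / H := by rw [le_div_iff₀ hH0]; linarith
      nlinarith
    unfold Ux at h1
    linarith
  have hIdisc' : 5 * Rx I + 4 * Ux I ≤ 9 := by
    rw [hIR, hIU, hQ]
    have e : 5 * (1 / H * (3 * X 0)) + 4 * (1 / H * Ux X) = 9 * ((35 * X 0 - 16) / 9 / H) := by
      unfold Ux; field_simp; ring
    rw [e]
    have : (35 * X 0 - 16) / 9 / H ≤ 1 := by rw [div_le_one hH0]; exact hHge
    linarith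
  have hIdisc : I 0 ^ 2 + I 1 ^ 2 ≤ 1 := by
    have h1 := Rx_sq I
    have h2 : Rx I ≤ 5 - 4 * I 0 := by unfold Ux at hIdisc'; linarith
    have h3 := Rx_nonneg I
    unfold Ux Vx at h1
    nlinarith
  have hIell : 27 * I 0 + 19 * I 1 - 33 ≤ 0 := ell_of_x hIdisc (by linarith)
  have hIG : Gx I ≤ 1 := by
    unfold Gx; rw [max_eq_right hIell]; linarith
  have hIH : ∀ s, Hz s I = 1 / H * Hz s X := by
    intro s
    unfold Hz
    rw [hIR, hIU, hIV, H_smul (by positivity)]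
  have hIcone : Cone (Ux I) (Vx I) → Cone (Ux X) (Vx X) := by
    intro C
    have := C.smul hH0.le
    rw [hIU, hIV] at this
    have e1 : H * (1 / H * Ux X) = Ux X := by field_simp
    have e2 : H * (1 / H * Vx X) = Vx X := by field_simp
    rwa [e1, e2] at this
  have hIK : I ∈ Kc := by
    rw [mem_Kc_iff]
    refine ⟨hIG, fun s hs C => ?_⟩
    rw [hIH s]
    have h1 : Hz s X ≤ H := by
      rw [Hz_on_Q hs hX hQ, hH]
      have hφs := lin_s_pos hs X hX
      have hψs := lin_pos (ap_sq hs) X hX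
      have h2 := pair_lower (X := X) (Y := Y) (isAff_lin (-aa s) (hh s))
        (isAff_lin (ap s) (hh s)) (lin_s_pos hs) (lin_pos (ap_sq hs))
        (by intro z hz; unfold lin; rw [hz]; ring) hX hf.memY
      rw [hψφ] at h2
      have h3 : φ X / ψ X ≤ lin (-aa s) (hh s) X / lin (ap s) (hh s) X := by
        rw [div_le_div_iff₀ hφs hφ] at h2
        rw [div_le_div_iff₀ hψ hψs]
        linarith
      have := mul_le_mul_of_nonneg_left h3 (show 0 ≤ 5 * (5 - X 0) / 9 by positivity)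
      linarith
    rw [one_div, inv_mul_le_iff₀ hH0]
    linarith
  have hInot : I ∉ Om := by
    intro hmem
    rcases hout with h | ⟨s, hs, C, h⟩
    · -- on the circle
      have h1 := Rx_lt_of_disc (disc_of_G_lt hmem.1)
      have h2 : 5 * Rx I + 4 * Ux I = 9 := by
        rw [hIR, hIU, hQ]
        have e : 5 * (1 / H * (3 * X 0)) + 4 * (1 / H * Ux X)
            = 9 * ((35 * X 0 - 16) / 9 / H) := by
          unfold Ux; field_simp; ring
        rw [e, ← h, div_self hH0.ne', mul_one]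
      unfold Ux at h2
      linarith
    · have h1 := (mem_Om_iff.mp hmem).2 s hs (by
        rw [hIU, hIV]; exact C.smul (by positivity))
      rw [hIH s, h] at h1
      have : 1 / H * H = 1 := by field_simp
      linarith
  have hray : Ray Om Fp X I H := ⟨mem_frontier hIK hInot, hH0, hH1, hlm⟩
  rw [E_eq isOpen_Om convex_Om Fp_mem hray, E_XF hX hQ, hH]
  have e : 1 - (1 - 5 * (5 - X 0) / 9 * (φ X / ψ X)) = 5 * (5 - X 0) / 9 * (φ X / ψ X) := by ring
  rw [e]
  field_simp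

/-- on the conic `R = 3x`, the two distances agree -/
theorem on_Q {X : Plane} (hX : X ∈ Om) (hQ : Rx X = 3 * X 0) :
    ∃ Y ∈ Ld, distTo Om X Ld = hilbertDist Om X Y ∧
      hilbertDist Om Fp X = hilbertDist Om X Y := by
  have hq := Q_eq hQ
  have hx1 := Q_x_lt hX hQ
  have hx2 := Q_x_ge hQ
  have hc2 : ((5 - 4 * X 0) / 3) ^ 2 + X 1 ^ 2 = 1 := by linarith
  have key : ∃ (Y : Plane) (φ ψ : Plane → ℝ), Foot X Y φ ψ ∧
      E Om Fp X * E Om X Fp = ψ X / φ X := by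
    by_cases hy : X 1 ≤ 60 / 109 ∨ 3 / 5 ≤ X 1
    · have hf := foot_horiz hX hQ.le hy (c := (5 - 4 * X 0) / 3) (by linarith) hc2
      refine ⟨_, _, _, hf, ?_⟩
      apply E_FX hf hQ rfl
      left
      unfold lin
      have e1 : 1 + (5 - 4 * X 0) / 3 * X 0 - X 1 * X 1
          = (5 - 4 * X 0) / 9 * (5 - X 0) := by linear_combination (-1) * hc2
      have e2 : 1 + -((5 - 4 * X 0) / 3) * X 0 - X 1 * X 1
          = (5 - 4 * X 0) / 9 * (5 - 7 * X 0) := by linear_combination (-1) * hc2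
      have h3 : (5 - 4 * X 0) / 9 ≠ 0 := by
        have : 0 < (5 - 4 * X 0) / 9 := by linarith
        exact this.ne'
      rw [e1, e2, mul_div_mul_left _ _ h3]
      have h4 : (5 - X 0) ≠ 0 := by linarith
      field_simp
      ring
    · push Not at hy
      obtain ⟨s, hs, Y, hf⟩ := foot_ivt hX (by linarith) hy.1.le hy.2.le
      refine ⟨_, _, _, hf, ?_⟩
      apply E_FX hf hQ rfl
      right
      refine ⟨s, hs, ?_, Hz_on_Q hs hX hQ⟩
      -- the cone condition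
      have hc0 : 0 < (5 - 4 * X 0) / 3 := by linarith
      have hc45 : 4 / 5 ≤ (5 - 4 * X 0) / 3 := by nlinarith
      have hc91 : (5 - 4 * X 0) / 3 ≤ 91 / 109 := by nlinarith
      constructor
      · unfold Ux Vx; linarith
      · unfold Ux Vx; linarith
  obtain ⟨Y, φ, ψ, hf, hE⟩ := key
  refine ⟨Y, hf.memY, hf.distTo_eq, ?_⟩
  rw [hilbertDist_eq hilbert_Om Fp_mem hX, hilbertDist_eq hilbert_Om hX hf.memY.1, hE, hf.E_eq]

end Pool.Agent.Lib.MP_3498ef_gt
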