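import Pool.Agent.Lib.MP_3498ef_gt.HFun

set_option autoImplicit false

open Set

namespace Pool.Agent.Lib.MP_3498ef_gt

/-- the parameter interval -/
def I0 : Set ℝ := Icc (4 / 3) (27 / 19)

noncomputable def dn (s : ℝ) : ℝ := 1 + s ^ 2 + (27 - 19 * s) ^ 2
noncomputable def sg (s : ℝ) : ℝ := 2 * (3 * s - 4) / (5 * dn s)
noncomputable def wx (s : ℝ) : ℝ := 4 / 5 + sg s
noncomputable def wy (s : ℝ) : ℝ := 3 / 5 - s * sg s
noncomputable def el (s : ℝ) : ℝ := sg s * (27 - 19 * s)
noncomputable def nu (s : ℝ) : ℝ := 1 + 33 * el s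
noncomputable def aa (s : ℝ) : ℝ := (wx s + 27 * el s) / nu s
noncomputable def hh (s : ℝ) : ℝ := (wy s + 19 * el s) / nu s
noncomputable def ap (s : ℝ) : ℝ := Real.sqrt (1 - hh s ^ 2)

theorem dn_pos (s : ℝ) : 0 < dn s := by unfold dn; positivity

theorem sg_nonneg {s : ℝ} (hs : s ∈ I0) : 0 ≤ sg s := by
  unfold sg
  have h1 : 0 ≤ 3 * s - 4 := by linarith [hs.1]
  have := dn_pos s
  positivity

theorem el_nonneg {s : ℝ} (hs : s ∈ I0) : 0 ≤ el s := by
  unfold el
  have h1 : 0 ≤ 27 - 19 * s := by linarith [hs.2]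
  exact mul_nonneg (sg_nonneg hs) h1

theorem nu_pos {s : ℝ} (hs : s ∈ I0) : 0 < nu s := by
  unfold nu; linarith [el_nonneg hs]

theorem sg_dn (s : ℝ) : sg s * (5 * dn s) = 2 * (3 * s - 4) := by
  unfold sg
  have := dn_pos s
  field_simp

theorem ell_w (s : ℝ) : 27 * wx s + 19 * wy s - 33 = el s := by
  unfold wx wy el; ring

theorem G_w (s : ℝ) : wx s ^ 2 + wy s ^ 2 + el s ^ 2 = 1 := by
  have h := sg_dn s
  unfold dn at h
  unfold wx wy el
  linear_combination (sg s / 5) * h

theorem wx_ge {s : ℝ} (hs : s ∈ I0) : 4 / 5 ≤ wx s := by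
  unfold wx; linarith [sg_nonneg hs]

theorem wy_le {s : ℝ} (hs : s ∈ I0) : wy s ≤ 3 / 5 := by
  unfold wy
  have := mul_nonneg (show 0 ≤ s by linarith [hs.1]) (sg_nonneg hs)
  linarith

theorem hh_le {s : ℝ} (hs : s ∈ I0) : hh s ≤ 3 / 5 := by
  unfold hh
  rw [div_le_iff₀ (nu_pos hs)]
  unfold nu
  linarith [wy_le hs, el_nonneg hs]

theorem hh_ge {s : ℝ} (hs : s ∈ I0) : 60 / 109 ≤ hh s := by
  unfold hh
  rw [div_le_div_iff₀ (by norm_num) (nu_pos hs)]
  have h := sg_dn s
  have hd := dn_pos s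
  have h1 : 0 ≤ 27 - 19 * s := by linarith [hs.2]
  have key : 0 ≤ (27 / 5 + sg s * (2457 - 1838 * s)) * (5 * dn s) := by
    have e : (27 / 5 + sg s * (2457 - 1838 * s)) * (5 * dn s)
        = 27 * dn s + (2457 - 1838 * s) * (sg s * (5 * dn s)) := by ring
    rw [e, h]
    unfold dn
    have e2 : 27 * (1 + s ^ 2 + (27 - 19 * s) ^ 2) + (2457 - 1838 * s) * (2 * (3 * s - 4))
        = (27 - 19 * s) * (2 + 66 * s) := by ring
    rw [e2]
    apply mul_nonneg h1; linarith [hs.1]
  have key2 := nonneg_of_mul_nonneg_left key (by positivity)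
  unfold nu wy el
  linarith

theorem aa_sq {s : ℝ} (hs : s ∈ I0) : 1 ≤ aa s ^ 2 + hh s ^ 2 := by
  have hn := nu_pos hs
  unfold aa hh
  rw [div_pow, div_pow, ← add_div, le_div_iff₀ (by positivity)]
  have h := G_w s
  have h2 := ell_w s
  have e : (wx s + 27 * el s) ^ 2 + (wy s + 19 * el s) ^ 2 - nu s ^ 2 = 2 * el s ^ 2 := by
    unfold nu
    linear_combination h + 2 * el s * h2
  nlinarith [sq_nonneg (el s)]

theorem wx_nonneg {s : ℝ} (hs : s ∈ I0) : 0 ≤ wx s := by linarith [wx_ge hs]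

theorem aa_pos {s : ℝ} (hs : s ∈ I0) : 0 < aa s := by
  unfold aa
  have := nu_pos hs
  have := wx_ge hs
  have := el_nonneg hs
  positivity

theorem ap_sq {s : ℝ} (hs : s ∈ I0) : ap s ^ 2 + hh s ^ 2 = 1 := by
  unfold ap
  have h1 := hh_le hs
  have h2 := hh_ge hs
  rw [Real.sq_sqrt (by nlinarith)]
  ring

theorem ap_pos {s : ℝ} (hs : s ∈ I0) : 0 < ap s := by
  unfold ap
  have h1 := hh_le hs
  have h2 := hh_ge hs
  apply Real.sqrt_pos.mpr
  nlinarith

theorem ap_le {s : ℝ} (hs : s ∈ I0) : ap s ≤ aa s := by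
  unfold ap
  rw [Real.sqrt_le_left (aa_pos hs).le]
  linarith [aa_sq hs]

/-- the support inequality -/
theorem support_le {s x y : ℝ} (hs : s ∈ I0)
    (hG : x ^ 2 + y ^ 2 + (max (27 * x + 19 * y - 33) 0) ^ 2 ≤ 1) :
    aa s * x + hh s * y ≤ 1 := by
  have hn := nu_pos hs
  have he := el_nonneg hs
  have hw := G_w s
  have h1 : 27 * x + 19 * y - 33 ≤ max (27 * x + 19 * y - 33) 0 := le_max_left _ _
  set M := max (27 * x + 19 * y - 33) 0
  have h2 : el s * (27 * x + 19 * y - 33) ≤ el s * M := mul_le_mul_of_nonneg_left h1 he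
  have h3 : (wx s + 27 * el s) * x + (wy s + 19 * el s) * y ≤ nu s := by
    unfold nu
    nlinarith [sq_nonneg (x - wx s), sq_nonneg (y - wy s), sq_nonneg (M - el s)]
  have e : aa s * x + hh s * y = ((wx s + 27 * el s) * x + (wy s + 19 * el s) * y) / nu s := by
    unfold aa hh; ring
  rw [e, div_le_one hn]
  exact h3

theorem support_lt {s x y : ℝ} (hs : s ∈ I0)
    (hG : x ^ 2 + y ^ 2 + (max (27 * x + 19 * y - 33) 0) ^ 2 < 1) :
    aa s * x + hh s * y < 1 := by
  have hn := nu_pos hs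
  have he := el_nonneg hs
  have hw := G_w s
  have h1 : 27 * x + 19 * y - 33 ≤ max (27 * x + 19 * y - 33) 0 := le_max_left _ _
  set M := max (27 * x + 19 * y - 33) 0
  have h2 : el s * (27 * x + 19 * y - 33) ≤ el s * M := mul_le_mul_of_nonneg_left h1 he
  have h3 : (wx s + 27 * el s) * x + (wy s + 19 * el s) * y < nu s := by
    unfold nu
    nlinarith [sq_nonneg (x - wx s), sq_nonneg (y - wy s), sq_nonneg (M - el s)]
  have e : aa s * x + hh s * y = ((wx s + 27 * el s) * x + (wy s + 19 * el s) * y) / nu s := by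
    unfold aa hh; ring
  rw [e, div_lt_one hn]
  exact h3

theorem support_w {s : ℝ} (hs : s ∈ I0) : aa s * wx s + hh s * wy s = 1 := by
  have hn := nu_pos hs
  have e : aa s * wx s + hh s * wy s
      = ((wx s + 27 * el s) * wx s + (wy s + 19 * el s) * wy s) / nu s := by
    unfold aa hh; ring
  rw [e, div_eq_one_iff_eq hn.ne']
  have h := G_w s
  have h2 := ell_w s
  unfold nu
  linear_combination h + el s * h2

theorem par_of {s : ℝ} (hs : s ∈ I0) : Par (aa s) (ap s) (hh s) := by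
  refine ⟨ap_sq hs, hh_ge hs, hh_le hs, ap_pos hs, ap_le hs, ?_, ?_⟩
  · have := support_le (x := 4 / 5) (y := 3 / 5) hs (by norm_num)
    linarith
  · have := support_le (x := 91 / 109) (y := 60 / 109) hs (by norm_num)
    linarith

theorem cont_sg : Continuous sg := by
  unfold sg
  apply Continuous.div (by fun_prop) (by unfold dn; fun_prop)
  intro s
  have := dn_pos s
  positivity

theorem cont_wx : Continuous wx := by unfold wx; have := cont_sg; fun_prop
theorem cont_wy : Continuous wy := by unfold wy; have := cont_sg; fun_prop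
theorem cont_el : Continuous el := by unfold el; have := cont_sg; fun_prop
theorem cont_nu : Continuous nu := by unfold nu; have := cont_el; fun_prop

theorem contOn_aa : ContinuousOn aa I0 := by
  unfold aa
  have h1 := cont_wx
  have h2 := cont_el
  apply ContinuousOn.div (by fun_prop) (cont_nu.continuousOn)
  intro s hs
  exact (nu_pos hs).ne'

theorem contOn_hh : ContinuousOn hh I0 := by
  unfold hh
  have h1 := cont_wy
  have h2 := cont_el
  apply ContinuousOn.div (by fun_prop) (cont_nu.continuousOn)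
  intro s hs
  exact (nu_pos hs).ne'

theorem contOn_ap : ContinuousOn ap I0 := by
  unfold ap
  have := contOn_hh
  fun_prop

theorem sg_left : sg (4 / 3) = 0 := by unfold sg; norm_num
theorem wx_left : wx (4 / 3) = 4 / 5 := by unfold wx; rw [sg_left]; norm_num
theorem wy_left : wy (4 / 3) = 3 / 5 := by unfold wy; rw [sg_left]; norm_num
theorem el_left : el (4 / 3) = 0 := by unfold el; rw [sg_left]; norm_num
theorem hh_left : hh (4 / 3) = 3 / 5 := by
  unfold hh nu; rw [wy_left, el_left]; norm_num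
theorem aa_left : aa (4 / 3) = 4 / 5 := by
  unfold aa nu; rw [wx_left, el_left]; norm_num
theorem ap_left : ap (4 / 3) = 4 / 5 := by
  unfold ap; rw [hh_left, show (1 : ℝ) - (3 / 5) ^ 2 = (4 / 5) ^ 2 by norm_num]
  exact Real.sqrt_sq (by norm_num)

theorem sg_right : sg (27 / 19) = 19 / 545 := by unfold sg dn; norm_num
theorem wx_right : wx (27 / 19) = 91 / 109 := by unfold wx; rw [sg_right]; norm_num
theorem wy_right : wy (27 / 19) = 60 / 109 := by unfold wy; rw [sg_right]; norm_num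
theorem el_right : el (27 / 19) = 0 := by unfold el; rw [sg_right]; norm_num
theorem hh_right : hh (27 / 19) = 60 / 109 := by
  unfold hh nu; rw [wy_right, el_right]; norm_num
theorem aa_right : aa (27 / 19) = 91 / 109 := by
  unfold aa nu; rw [wx_right, el_right]; norm_num
theorem ap_right : ap (27 / 19) = 91 / 109 := by
  unfold ap; rw [hh_right, show (1 : ℝ) - (60 / 109) ^ 2 = (91 / 109) ^ 2 by norm_num]
  exact Real.sqrt_sq (by norm_num)

end Pool.Agent.Lib.MP_3498ef_gt
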